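import Mathlib
import Pool.Agent.helper82.UM.Defs

/-!
# Project PU (MP_2e0e07_nt): polynomial adelic open image for the pair (f, X), definitions

Page: `/team-store/H9_2e0e07_helper16.md` (helper16, helper89). Everything here is used in the final
statement.
-/

set_option autoImplicit false

namespace Pool.Agent.PU

open Matrix Polynomial Pool.Agent.GO Pool.Agent.AR Pool.Agent.RG Pool.Agent.HZ Pool.Agent.DS
  Pool.Agent.AX Pool.Agent.UM NumberField

/-- The distance of a matrix (of size two, over a field with an ultrametric norm) to the scalar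
matrices. -/
noncomputable def nu {F : Type*} [NormedField F] (A : Matrix (Fin 2) (Fin 2) F) : ℝ :=
  max (max ‖A 0 1‖ ‖A 1 0‖) ‖A 0 0 - A 1 1‖

/-- The effective theorem of Chebotarev as in `EffectiveChebotarev`, where moreover the norm of the
place may be required to be prime to a given number `l ≥ 1`; the bound is `b B * (l * N) ^ a B`. -/
def EffectiveChebotarev' {Γ Place : Type} [Group Γ] [TopologicalSpace Γ] (frob : Place → Set Γ)
    (nv : Place → ℕ) (T : Set Place) (p : ℕ) (K : Subgroup Γ) (a b : ℕ → ℕ) (N : ℕ) : Prop :=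
  ∀ l : ℕ, 1 ≤ l → ∀ (B : ℕ) (U : Subgroup Γ), IsOpen (U : Set Γ) → U.Normal → K ≤ U →
    U.index ≤ B → ∀ g : Γ, ∃ v ∉ T, ¬ p ∣ nv v ∧ (nv v).Coprime l ∧ nv v ≤ b B * (l * N) ^ a B ∧
      ∃ s ∈ frob v, s⁻¹ * g ∈ U

/-- The common kernel of the `V q i`, for all primes `q`, and of the `ad (ρ k)` for `k ≠ j`. -/
noncomputable def zker {Γ : Type*} [Group Γ] {r : ℕ} {n : Fin r → ℕ}
    (V : (q : ℕ) → [Fact q.Prime] → (i : Fin r) → Γ →* Matrix (Fin (n i)) (Fin (n i)) ℤ_[q])
    {J : Type*} {F : J → Type*} [∀ j, Field (F j)] (ρ : ∀ j, Γ →* Matrix (Fin 2) (Fin 2) (F j))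
    (j : J) : Subgroup Γ :=
  kerAll V ⊓ ⨅ k : {k : J // k ≠ j}, adKer (ρ k.1)

end Pool.Agent.PU
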