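import Mathlib
import Pool.Agent.helper16.PU.Defs
import Pool.Agent.helper66.AX.LFT
import Pool.Agent.helper44.AX.FIX
import Pool.Agent.helper64.AX.RES

/-!
# Project PU (MP_2e0e07_nt): polynomial adelic open image, part 2 (all primes `q`, index, product)

Page: `/team-store/H9_2e0e07_helper16.md`. Rows are the definitions `XXX_stmt : Prop`; prove
`theorem XXX (h1 : AAA_stmt) ... : XXX_stmt` (exact line in the lock note) in
`Pool/Agent/<you>/PU/XXX.lean`, `import Pool.Agent.helper16.PU.Spec2`, `set_option autoImplicit false`,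
`namespace Pool.Agent.PU`; open the same namespaces as here; auxiliary lemmas are named `XXX_...`. A complete proof of
every row is in its docstring. No double quotes, no `convert`, no `congr!`. All rows are independent.

`nu A` = distance of `A` to the scalars (max of `‖A 0 1‖`, `‖A 1 0‖`, `‖A 0 0 - A 1 1‖`). Level subgroups:
`FIX_L ρ hint ε hε = {g | nu (ρ g) ≤ ε}` (Pool/Agent/helper44/AX/FIX.lean: subgroup, normal, open, powers); `FIX_Q ρ ε g`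
is `nu (ρ g) ≤ ε` (`max_le_iff`). Ultrametric: `IsUltrametricDist F` is proved in `LFT`, `FIX` (copy).
Leading terms: `LFT_LT ρ red d π x X`, `LFT_lt_mul`, `LFT_lt_inv`, `LFT_lt_conj`, `LFT_comm`, and the additive group
`LFT_sub_lt ρ h hd0 hd1 hπ hρ1 Z` of the leading terms of the elements of `Z` (Pool/Agent/helper66/AX/LFT.lean).
-/

set_option autoImplicit false

namespace Pool.Agent.PU

open Matrix Polynomial Pool.Agent.GO Pool.Agent.AR Pool.Agent.RG Pool.Agent.HZ Pool.Agent.DS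
  Pool.Agent.AX Pool.Agent.UM NumberField

/-! ## Block I: the index of a closed normal subgroup -/

/-- **Row RAM** (short-medium; extensions of `ℚ_[p]` of degree at most `d`).
(1) `‖x‖ < 1` implies `‖x‖ ^ d ≤ p⁻¹`. Proof: `x ≠ 0` w.l.o.g. (`d ≥ 1` as `F ≠ 0`). `1, x, .., x ^ D`, `D = finrank`, are linearly
dependent over `ℚ_[p]`: `∑ c_i x^i = 0`, `c_i ∈ ℚ_[p]` not all zero. `F` is ultrametric, so two different terms
`i < k` have the same norm `≠ 0` (otherwise the sum has the norm of the largest term): `‖x‖ ^ (k - i) = ‖c_i‖ / ‖c_k‖` is a power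
`p ^ z`, `z : ℤ` (`Padic.norm_values_discrete` / `padicNormE.image`), and it is `< 1`, so it is `≤ p⁻¹`; and `0 < k - i ≤ d`.
(Or: Mathlib's spectral norm / `Algebra.norm`: `‖Algebra.norm ℚ_[p] x‖ = ‖x‖ ^ finrank`.)
(2) The set `{x | ‖x‖ < 1}` is closed (`IsUltrametricDist.isClosed_ball`) and bounded, so compact (`F` is proper), so `‖·‖` has a
maximum on it, at `π`; it is not `0` as `‖(p : F)‖ = p⁻¹`. -/
def RAM_stmt : Prop := ∀ (p d : ℕ) [Fact p.Prime] (F : Type) [NormedField F] [NormedAlgebra ℚ_[p] F]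
  [FiniteDimensional ℚ_[p] F], Module.finrank ℚ_[p] F ≤ d →
  (∀ x : F, ‖x‖ < 1 → ‖x‖ ^ d ≤ (p : ℝ)⁻¹) ∧
  ∃ π : F, 0 < ‖π‖ ∧ ‖π‖ < 1 ∧ ∀ x : F, ‖x‖ < 1 → ‖x‖ ≤ ‖π‖

/-- **Row RSC** (short-medium; the residue field has at most `p ^ d` elements). `κ₀ = {red x | ‖x‖ ≤ 1}` is closed under `+`, `*`, `-`
and contains the image of `ZMod p` (`κ` is an algebra over `ZMod p` by `ZMod.algebra κ p`); let `κ₀` be a `ZMod p`-submodule of `κ`. If `y_i = red x_i`, `i ∈ Fin k`, are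
linearly independent over `ZMod p` then the `x_i` are linearly independent over `ℚ_[p]`: in a relation `∑ c_i x_i = 0` scale such that `max ‖c_i‖ = 1`
(`c_i ∈ ℤ_[p]`), then `∑ (c_i mod p) y_i = 0` with some `c_i mod p ≠ 0` (`red (c • x) = (c mod p) • red x`: `c = n + p c'`, `n : ℕ`). So `k ≤ finrank ℚ_[p] F ≤ d`; so the
submodule has rank at most `d` and at most `p ^ d` elements (`Module.card_eq_pow_finrank`, or: every finite subset of `κ₀` ... ). -/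
def RSC_stmt : Prop := ∀ (p d : ℕ) [Fact p.Prime] (F κ : Type) [NormedField F] [NormedAlgebra ℚ_[p] F]
  [FiniteDimensional ℚ_[p] F] [Field κ] [CharP κ p] (red : F → κ), IsRed red →
  Module.finrank ℚ_[p] F ≤ d → (red '' {x | ‖x‖ ≤ 1}).Finite ∧ (red '' {x | ‖x‖ ≤ 1}).ncard ≤ p ^ d

/-- **Row GSL** (short; pure algebra). `(h, b, c)` stands for `!![h, b; c, -h]`, `u' = !![1, -1; 0, 1]`, `w' = !![1, 0; -1, 1]`. `W` an additive group of matrices of trace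
zero, stable under conjugation by `mu` and `mw`. Then for `M = {x | (0, x, 0) ∈ W}`: `X = (h, b, c) ∈ W` iff `h, b, c ∈ M`.
Proof. The differences `X' = (c, -2h - c, 0) = mu X u' - X` and `(-b, 0, 2h - b) = mw X w' - X` are in `W`; `2 Y ∈ W → Y ∈ W` (`p Y = 0`, `p` odd). The steps (1), (2), (3) of the docstring of
`LSL_stmt` (Pool/Agent/helper44/AX/SpecA.lean) with `R = W` (their proof is in the file of row LSL): for `X ∈ W` the three matrices with one coordinate equal to `c`, the others `0`, are in `W`; the same for `b`; and `(h, 0, 0) ∈ W`.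
From `(h, 0, 0) ∈ W`: its first difference `(0, -2h, 0) ∈ W`, so `(0, h, 0) ∈ W`. So `h, b, c ∈ M`. Conversely, for `x ∈ M` (step (2) for `(0, x, 0)`) the matrices `(x, 0, 0)`, `(0, x, 0)`, `(0, 0, x)` are in `W`. -/
def GSL_stmt : Prop := ∀ (p : ℕ) [Fact p.Prime], p ≠ 2 → ∀ (κ : Type) [Field κ] [CharP κ p]
  (W : AddSubgroup (Matrix (Fin 2) (Fin 2) κ)), (∀ X ∈ W, X.trace = 0) →
  (∀ X ∈ W, mu κ * X * !![1, -1; 0, 1] ∈ W) → (∀ X ∈ W, mw κ * X * !![1, 0; -1, 1] ∈ W) →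
  ∀ h b c : κ, !![h, b; c, -h] ∈ W ↔ !![0, h; 0, 0] ∈ W ∧ !![0, b; 0, 0] ∈ W ∧ !![0, c; 0, 0] ∈ W

/-- **Row GRD** (medium; the graded pieces). `0 < r = ‖π‖ < 1` and `r' < r` such that `‖x‖ < r` implies `‖x‖ ≤ r'`. `Z` a subgroup. The index of `{g ∈ Z | nu ≤ r'}` in
`{g ∈ Z | nu ≤ r}` is the number of leading terms.
Proof. For `g ∈ FIX_L ρ hint r` there is exactly one `X` with `LFT_LT ρ red r π g X`. Existence: `ρ g = c (1 + Y)` with `c = ρ g 1 1`, `‖c‖ = 1` (the determinant has norm `1`, `FIX_det`, and the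
off-diagonal entries are `< 1`, so `‖ρ g 0 0‖ = ‖ρ g 1 1‖ = 1`), `Y = c⁻¹ • ρ g - 1`, `‖Y a b‖ ≤ nu (ρ g) ≤ r`; `X = (π⁻¹ • Y).map red + s • 1` with `s = - trace / 2`. Uniqueness: if `c (1 + Y) = c' (1 + Y')` then
`Y = t • 1 + (c'/c) Y'`, `t = c'/c - 1`, `‖t‖ ≤ r`, `c'/c = 1 + t`: `Y = Y' + t • 1 + t • Y'`, the last of norm `≤ r² < r`: the reductions of `π⁻¹ • Y`, `π⁻¹ • Y'` differ by a scalar; both `X` have trace
`0` and `p ≠ 2`. If `LFT_LT g X` then `g ∈ FIX_L ρ hint r`. `X = 0` iff all of `π⁻¹ Y 0 1`, `π⁻¹ Y 1 0`, `π⁻¹ (Y 0 0 - Y 1 1)` have reduction `0`, i.e. norm `< 1`, iff `nu (ρ g) < r` iff `nu (ρ g) ≤ r'`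
(`nu (ρ g) = nu Y`, as `‖c‖ = 1`; `nu (ρ g)` is the norm of an element). So `g ↦ X` is a homomorphism (`LFT_lt_mul`) from `FIX_L r ⊓ Z` onto `LFT_sub_lt .. Z` (written multiplicatively) with kernel
`FIX_L r' ⊓ Z`: `Subgroup.relIndex` (`Subgroup.relIndex_inf_ker..`, `Subgroup.index_ker`, or the bijection of the quotient `Subgroup.quotientKerEquivOfSurjective`). -/
def GRD_stmt : Prop := ∀ (p : ℕ) [Fact p.Prime], p ≠ 2 → ∀ (Γ F κ : Type) [Group Γ] [NormedField F]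
  [IsUltrametricDist F] [NormedAlgebra ℚ_[p] F] [Field κ] [CharP κ p] (red : F → κ) (hred : IsRed red)
  (ρ : Γ →* Matrix (Fin 2) (Fin 2) F) (hint : ∀ g a b, ‖ρ g a b‖ ≤ 1) (π : F) (r r' : ℝ)
  (hr0 : 0 < r) (hr1 : r < 1) (hπ : ‖π‖ = r) (hr' : 0 ≤ r'), r' < r → (∀ x : F, ‖x‖ < r → ‖x‖ ≤ r') →
  ∀ Z : Subgroup Γ, (FIX_L ρ hint r' hr' ⊓ Z).relIndex (FIX_L ρ hint r hr0.le ⊓ Z) =
    Nat.card (LFT_sub_lt ρ hred hr0 hr1 hπ hint Z)

/-- **Row SHF** (medium; from GSL: the shift by the level of `Z`). `W` = the leading terms at radius `r = ‖π‖` of all elements of `Γ`, `WZ` = the leading terms at radius `r s`, `s = ‖σ‖`, of the elements of the normal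
subgroup `Z`, where some `z₀ ∈ Z` has `nu (ρ z₀) = s`. Then `#W ≤ #WZ` (all leading terms have entries in the finite set `red '' {‖x‖ ≤ 1}`, so both groups are finite).
Proof. Let `γ, γ'` be as in `ContainsPSL S ⊤`. `W₁ = γ' W γ`, `WZ₁ = γ' WZ γ` and `WZ' = γ' WZ'' γ`, `WZ''` = the leading terms at radius `s` (with `σ`) of the elements of `Z`, are stable under conjugation by `mu`, `mw` (`LFT_lt_conj` for the elements
`y` with `S y = c • γ mu γ'`, `S y⁻¹ = c⁻¹ • γ mu⁻¹ γ'`; see `hinv` in the proof of `LFT_comm`; conjugates of elements of `Z` are in `Z`), and consist of matrices of trace `0`. GSL: let `M`, `MZ`, `M'` be the sets of their `x` with `(0, x, 0) ∈ ..`. `z₀` has a leading term `X₀ ≠ 0` at radius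
`s` (`nu (ρ z₀) = s`), `γ' X₀ γ ≠ 0`, one of its coordinates is `μ ≠ 0`, `μ ∈ M'`. COMMUTATOR: if `x` has the leading term `X` at radius `r`, `z` the leading term `Y` at radius `s` then `x z x⁻¹ z⁻¹` has the leading term `X Y - Y X` at radius `r s` (with `π σ`):
`ρ x = c (1 + A)`, `ρ z = c' (1 + B)`, `(1+A)(1+B) = (1 + (AB - BA) (1+A)⁻¹ (1+B)⁻¹ ) (1+B)(1+A)`; the scalars drop out of `[A, B]`; trace of a commutator is `0`. So for `x ∈ M`: `(x, 0, 0) ∈ W₁`, `(0, μ, 0) ∈ WZ'`, `[(x,0,0), (0,μ,0)] = (0, 2 x μ, 0) ∈ WZ₁`: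
`2 μ x ∈ MZ`. The map `(h, b, c) ↦ (2 μ h, 2 μ b, 2 μ c)` is injective from `W₁` to `WZ₁` (GSL); conjugation by `γ` is a bijection. -/
def SHF_stmt : Prop := ∀ (p d : ℕ) [Fact p.Prime], p ≠ 2 → ∀ (Γ F κ : Type) [Group Γ] [NormedField F]
  [IsUltrametricDist F] [NormedAlgebra ℚ_[p] F] [FiniteDimensional ℚ_[p] F] [Field κ] [CharP κ p] (red : F → κ) (hred : IsRed red)
  (ρ : Γ →* Matrix (Fin 2) (Fin 2) F) (hint : ∀ g a b, ‖ρ g a b‖ ≤ 1)
  (S : Γ →* Matrix (Fin 2) (Fin 2) κ), (∀ g, S g = (ρ g).map red) → ContainsPSL S ⊤ →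
  (red '' {x | ‖x‖ ≤ 1}).Finite →
  ∀ (π σ : F) (r s : ℝ) (hr0 : 0 < r) (hr1 : r < 1) (hπ : ‖π‖ = r) (hs0 : 0 < s) (hs1 : s < 1) (hσ : ‖σ‖ = s)
  (Z : Subgroup Γ), Z.Normal → (∃ z ∈ Z, nu (ρ z) = s) →
  ∀ (hrs0 : 0 < r * s) (hrs1 : r * s < 1) (hπσ : ‖π * σ‖ = r * s),
    Nat.card (LFT_sub_lt ρ hred hr0 hr1 hπ hint ⊤) ≤
      Nat.card (LFT_sub_lt ρ hred hrs0 hrs1 hπσ hint Z)

/-- **Row TEL** (short-medium; group theory, telescoping). `L 0 = ⊤ ≥ L 1 ≥ ..` normal subgroups, `Z ≤ L 1` normal; the index of `L (j+1)` in `L j` is between `1` and `C`, and for `j ≥ 1` at most the index of `L (j+b+1) ⊓ Z` in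
`L (j+b) ⊓ Z` (`≠ 0`). Then the index of `Z ⊔ L J` is at most `C ^ (b + 1)` for all `J`.
Proof. `w_j`, `z_j` = the two indices. It is enough to treat `J ≥ b + 1` (`Z ⊔ L J` is decreasing in `J`: `Subgroup.index_antitone`-type). `[Γ : L J] = ∏_(j<J) w_j` and `[Z : L J ⊓ Z] = ∏_(1≤j<J) z_j` (`L 1 ⊓ Z = Z`; `Subgroup.relIndex_mul_relIndex`), `[Γ : L J] = [Γ : Z ⊔ L J] [Z ⊔ L J : L J]`,
`[Z ⊔ L J : L J] = [Z : L J ⊓ Z]` (`Subgroup.relIndex_sup_right`). So `[Γ : Z ⊔ L J] ∏_(1≤j<J) z_j = ∏_(j<J) w_j`. `∏_(1≤j<J) z_j ≥ ∏_(b+1≤j<J) z_j ≥ ∏_(1≤j<J-b) w_j` (all `z_j ≥ 1`), and `∏_(j<J) w_j = w_0 ∏_(1≤j<J-b) w_j ∏_(J-b≤j<J) w_j ≤ C^(b+1) ∏_(1≤j<J-b) w_j`; cancel. -/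
def TEL_stmt : Prop := ∀ (Γ : Type) [Group Γ] (L : ℕ → Subgroup Γ) (Z : Subgroup Γ) (C b : ℕ),
  L 0 = ⊤ → Antitone L → (∀ j, (L j).Normal) → Z.Normal → Z ≤ L 1 →
  (∀ j, (L (j + 1)).relIndex (L j) ≠ 0 ∧ (L (j + 1)).relIndex (L j) ≤ C) →
  (∀ j, (L (j + 1) ⊓ Z).relIndex (L j ⊓ Z) ≠ 0) →
  (∀ j, 1 ≤ j → (L (j + 1)).relIndex (L j) ≤ (L (j + b + 1) ⊓ Z).relIndex (L (j + b) ⊓ Z)) →
  ∀ J, (Z ⊔ L J).index ≠ 0 ∧ (Z ⊔ L J).index ≤ C ^ (b + 1)

/-- **Row CPT** (short-medium; compactness). `Γ` compact, `Z` a closed subgroup, `L j` decreasing closed normal subgroups, the index of `Z ⊔ L J` is `≠ 0` and at most `K` for all `J`. Then the same holds for `Z ⊔ ⨅ L J`.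
Proof. `H J = Z ⊔ L J` is decreasing with bounded indices, which divide each other: let `J₀` have the largest index; for `J ≥ J₀` `H J ≤ H J₀` have the same finite index, so they are equal (`Subgroup.relIndex_mul_index`, relIndex `= 1`). `⨅ H J ≤ Z ⊔ ⨅ L J`: let `g ∈ H J` for all `J`; the sets `C J = {z ∈ Z | z⁻¹ * g ∈ L J}` are closed,
nonempty (`Subgroup.mem_sup_of_normal_right`) and decreasing, so they have a common element (`IsCompact.nonempty_iInter_of_directed_nonempty_isCompact_isClosed` or `CompactSpace`). So `Z ⊔ ⨅ L J = H J₀`. -/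
def CPT_stmt : Prop := ∀ (Γ : Type) [Group Γ] [TopologicalSpace Γ] [IsTopologicalGroup Γ] [CompactSpace Γ]
  (L : ℕ → Subgroup Γ) (Z : Subgroup Γ) (K : ℕ), Antitone L → (∀ j, (L j).Normal) →
  (∀ j, IsClosed (L j : Set Γ)) → IsClosed (Z : Set Γ) →
  (∀ J, (Z ⊔ L J).index ≠ 0 ∧ (Z ⊔ L J).index ≤ K) →
  (Z ⊔ ⨅ J, L J).index ≠ 0 ∧ (Z ⊔ ⨅ J, L J).index ≤ K

/-- **Row IDX** (medium; from RAM, RSC, GSL, GRD, SHF, TEL, CPT). The index of a closed normal subgroup is bounded by the level of one element.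
Proof. `F` is ultrametric and `d ≥ 1`. `π` from RAM; `‖π‖ =: r₀`. Every `x ≠ 0` with `‖x‖ ≤ 1` has `‖x‖ = r₀ ^ k` for some `k : ℕ`: let `k` be the largest number with `‖x‖ ≤ r₀ ^ k`; then `r₀ < ‖x / π^k‖ ≤ 1`, so it is not `< 1` (RAM). Let `z₀ = z`, `s = nu (ρ z) > 0`, the norm of an entry or of a difference of entries, so
`s = r₀ ^ b`; `b ≥ 1` as `z ∈ Z ≤ adKer S` (`S z` scalar: `nu (ρ z) < 1` by `IsRed.zero_iff`, for the difference use `IsRed.add`; see the proof of `hd1` in LFT). `L 0 = ⊤`, `L j = FIX_L ρ hint (r₀ ^ j)` for `j ≥ 1` (note: `FIX_L` for radius `1` is everything, so one may take `L j = FIX_L ρ hint (r₀ ^ j)` for all `j`, `r₀ ^ 0 = 1`). Normal, open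
(`FIX_L_open`), so closed, decreasing, intersection `adKer ρ` (`nu = 0`). `Z ≤ L 1`: as for `b ≥ 1`. Indices: `w_0 = [Γ : L 1] ≤ q^4`, `q = #(red '' ..) ≤ p^d` (RSC): `L 1 ≥ S.ker` has at most as many cosets as `S` has values, and these are matrices with entries in `red '' ..`. For `j ≥ 1` GRD with `Z := ⊤` (`FIX_L ⊓ ⊤`), radius `r₀^j`, `r' = r₀^(j+1)`
(if `‖x‖ < r₀^j` then `‖x/π^j‖ < 1`, RAM): `w_j = #W_j ≤ q^4`, finite (entries of leading terms: `(π⁻¹ • Y).map red + s • 1` with trace zero, so `s = -trace/2`, is in `red '' ..` as this is a field; or: bound by `h, b, c`: GSL not needed: `W_j` injects into triples of `red '' ..`). `z_j = #WZ_j` by GRD for `Z`, finite. For `j ≥ 1`: SHF with `r = r₀^j`, `s = r₀^b`: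
`w_j ≤ z_(j+b)`. TEL with `C = p^(4 d)`, CPT: `(Z ⊔ adKer ρ).index ≤ p^(4 d (b + 1))`. Finally `r₀ ^ d ≤ p⁻¹` (RAM), `s = r₀^b`: `s ^ d ≤ p^(-b)`, so `p^b ≤ s^(-d)` and `p^(4 d (b+1)) ≤ p^(4 d) s^(-4 d²) ≤ (p / s)^(4 d²)` (`1 ≤ d`, `1 ≤ p`, `s ≤ 1`). -/
def IDX_stmt : Prop := ∀ (p d : ℕ) [Fact p.Prime], p ≠ 2 → ∀ (Γ : Type) [Group Γ]
  [TopologicalSpace Γ] [IsTopologicalGroup Γ] [CompactSpace Γ] (F κ : Type) [NormedField F]
  [NormedAlgebra ℚ_[p] F] [FiniteDimensional ℚ_[p] F] [Field κ] [CharP κ p] (red : F → κ),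
  IsRed red → Module.finrank ℚ_[p] F ≤ d → ∀ (ρ : Γ →* Matrix (Fin 2) (Fin 2) F)
  (S : Γ →* Matrix (Fin 2) (Fin 2) κ), Continuous ρ → (∀ g a b, ‖ρ g a b‖ ≤ 1) →
  (∀ g, S g = (ρ g).map red) → ContainsPSL S ⊤ →
  ∀ Z : Subgroup Γ, Z.Normal → IsClosed (Z : Set Γ) → Z ≤ adKer S → ∀ z ∈ Z, 0 < nu (ρ z) →
    (Z ⊔ adKer ρ).index ≠ 0 ∧
      ((Z ⊔ adKer ρ).index : ℝ) ≤ ((p : ℝ) / nu (ρ z)) ^ (4 * d ^ 2)

/-! ## Block R: the residual representation -/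

/-- **Row RSZ** (short-medium; second half of the proof of `RES`, Pool/Agent/helper64/AX/RES.lean: copy it). A normal subgroup `Z` on which `S` is not scalar. There `Z` is the group `M ⊓ Kp ⊓ ⨅ K a`; only `Z` normal and
`Z.map φ ≠ ⊥` are used (`hmain` is replaced by the hypothesis `¬ Z ≤ adKer S`). `theorem RSZ (hDNO : DNO_stmt) (hDUW : DUW_stmt) (hDPG : DPG_stmt) (hPMK : PMK_stmt) (hDRS : DRS_stmt)`. -/
def RSZ_stmt : Prop := ∀ (p : ℕ) [Fact p.Prime], 5 ≤ p →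
  ∀ (Γ : Type) [Group Γ] [TopologicalSpace Γ] [IsTopologicalGroup Γ] [CompactSpace Γ] (κ : Type)
  [Field κ] [IsAlgClosed κ] [CharP κ p] (S : Γ →* Matrix (Fin 2) (Fin 2) κ),
  IsOpen (S.ker : Set Γ) → Big p S → ∀ Z : Subgroup Γ, Z.Normal → ¬ Z ≤ adKer S →
  (Z ⊔ adKer S).index ≠ 0 ∧ (Z ⊔ adKer S).index ≤ 2 ∧ ContainsPSL S Z

/-- **Row ITW** (short; from RSZ and `LFT_stmt`, as at the end of `CRA`, Pool/Agent/helper64/AX/CRA.lean). LFT: `adKer S ≤ Z ⊔ adKer ρ`, and `adKer ρ ≤ adKer S` (`S g = (ρ g).map red`; `red` of a scalar matrix is scalar), so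
`Z ⊔ adKer ρ = Z ⊔ adKer S`. `IsOpen S.ker`: row RDX (2) of UM (hypothesis here). -/
def ITW_stmt : Prop := ∀ (p : ℕ) [Fact p.Prime], 5 ≤ p → ∀ (Γ : Type) [Group Γ]
  [TopologicalSpace Γ] [IsTopologicalGroup Γ] [CompactSpace Γ] (F κ : Type) [NormedField F]
  [NormedAlgebra ℚ_[p] F] [FiniteDimensional ℚ_[p] F] [Field κ] [IsAlgClosed κ] [CharP κ p] (red : F → κ),
  IsRed red → ∀ (ρ : Γ →* Matrix (Fin 2) (Fin 2) F) (S : Γ →* Matrix (Fin 2) (Fin 2) κ),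
  Continuous ρ → (∀ g a b, ‖ρ g a b‖ ≤ 1) → (∀ g, S g = (ρ g).map red) →
  IsOpen (S.ker : Set Γ) → Big p S →
  ∀ Z : Subgroup Γ, Z.Normal → IsClosed (Z : Set Γ) → ¬ Z ≤ adKer S →
    (Z ⊔ adKer ρ).index ≠ 0 ∧ (Z ⊔ adKer ρ).index ≤ 2

/-- **Row GTR** (short). If `S` has an element of order `p` (the characteristic) then a subgroup of finite index contained in `adKer S` has index at least `p`. Proof. `orderOf (S g) = p`. The cosets of `g ^ k`, `k < p`, are different: otherwise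
`g ^ k ∈ K ≤ adKer S` for some `0 < k < p` (`k = i - j`), `(S g) ^ k = c • 1`; `p`-th powers: `c ^ p = 1`, so `(c - 1) ^ p = 0` (`sub_pow_char`), `c = 1` and `(S g) ^ k = 1`: `p ∣ k`. -/
def GTR_stmt : Prop := ∀ (p : ℕ) [Fact p.Prime] (Γ κ : Type) [Group Γ] [Field κ] [CharP κ p]
  (S : Γ →* Matrix (Fin 2) (Fin 2) κ), (∃ g, orderOf (S g) = p) →
  ∀ K : Subgroup Γ, K ≤ adKer S → K.index ≠ 0 → p ≤ K.index

/-! ## Block Z: all primes q -/

/-- **Row ALQ** (medium; from `LPC_stmt`, `YV_stmt`, `YA_stmt`). `x` in the kernel of the `V (p j) i`, `nu (ρ j x) < 1`: some `z ∈ zker V ρ j` is at least as far from the scalars as the commutator `cmt m! x (g x g⁻¹)`.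
Proof. Suppose `nu (ρ j z) < t := nu (ρ j (cmt ..))` for all `z ∈ Z := zker V ρ j`. `Z` is closed (kernels of continuous homomorphisms, `adKer (ρ k)` is closed), so compact, and `z ↦ nu (ρ j z)` is continuous: it has a maximum `B < t` on `Z`. `ε = max B (t / 2)`, `0 < ε < t`. `N₀ = FIX_L (ρ j) hint ε` open and normal, `Z ≤ N₀`.
`M = kerV (V (p j)) ⊓ FIX_L (ρ j) hint (nu (ρ j x))`: a closed subgroup (both are normal; `FIX_L` for radius `0` is `adKer`, closed), containing `x` and `g x g⁻¹`. Every `y ∈ M` has `ρ j y = c (1 + Y)` with `‖Y‖ ≤ nu (ρ j x) < 1`, so some `y ^ p ^ k ∈ N₀` (`FIX_powpow` / see row YA). The layers: `A = ({q : ℕ // q.Prime ∧ q ≠ p j} × Fin r) ⊕ {k : J // k ≠ j}`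
exactly as in the proof of `CRA` (Pool/Agent/helper64/AX/CRA.lean; also `CRB`, helper60): `M ⊓ ⨅ a, K a ≤ Z ≤ N₀`. LPC: `cmt m! x (g x g⁻¹) ∈ N₀`, so `t ≤ ε < t`, a contradiction. -/
def ALQ_stmt : Prop := ∀ (Γ : Type) [Group Γ] [TopologicalSpace Γ] [IsTopologicalGroup Γ]
  [CompactSpace Γ] (r : ℕ) (n : Fin r → ℕ)
  (V : (q : ℕ) → [Fact q.Prime] → (i : Fin r) → Γ →* Matrix (Fin (n i)) (Fin (n i)) ℤ_[q]),
  (∀ (q : ℕ) [Fact q.Prime] (i : Fin r), Continuous (V q i)) →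
  ∀ (J : Type) (p : J → ℕ) [∀ j, Fact (p j).Prime], Function.Injective p →
  ∀ (F κ : J → Type) [∀ j, NormedField (F j)] [∀ j, NormedAlgebra ℚ_[p j] (F j)]
    [∀ j, FiniteDimensional ℚ_[p j] (F j)] [∀ j, Field (κ j)] [∀ j, IsAlgClosed (κ j)]
    [∀ j, CharP (κ j) (p j)] (red : ∀ j, F j → κ j), (∀ j, IsRed (red j)) →
  ∀ ρ : (j : J) → Γ →* Matrix (Fin 2) (Fin 2) (F j), (∀ j, Continuous (ρ j)) →
  (∀ j g a b, ‖ρ j g a b‖ ≤ 1) → ∀ m : ℕ, 3 ≤ m → (∀ i, n i ≤ m) → ∀ j : J,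
  ∀ x ∈ kerV (V (p j)), nu (ρ j x) < 1 → ∀ g : Γ,
    ∃ z ∈ zker V ρ j, nu (ρ j (cmt m.factorial x (g * x * g⁻¹))) ≤ nu (ρ j z)

/-- **Row ZNC** (short). `zker V ρ j` is normal and closed, and `zker V ρ j ⊔ adKer (ρ j) = cross V ρ j`. Proof: kernels and `adKer_normal`; intersections of normal subgroups (`Subgroup.normal_iInf_normal`, `Subgroup.normal_inf_normal`); `(V q i).ker` is closed (`V q i` continuous into a Hausdorff space),
`adKer (ρ k) = {g | ρ g 0 1 = 0 ∧ ρ g 1 0 = 0 ∧ ρ g 0 0 = ρ g 1 1}` is closed; the last is the definition of `cross`. -/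
def ZNC_stmt : Prop := ∀ (Γ : Type) [Group Γ] [TopologicalSpace Γ] (r : ℕ) (n : Fin r → ℕ)
  (V : (q : ℕ) → [Fact q.Prime] → (i : Fin r) → Γ →* Matrix (Fin (n i)) (Fin (n i)) ℤ_[q]),
  (∀ (q : ℕ) [Fact q.Prime] (i : Fin r), Continuous (V q i)) →
  ∀ (J : Type) (F : J → Type) [∀ j, NormedField (F j)]
  (ρ : (j : J) → Γ →* Matrix (Fin 2) (Fin 2) (F j)), (∀ j, Continuous (ρ j)) → ∀ j : J,
  (zker V ρ j).Normal ∧ IsClosed (zker V ρ j : Set Γ) ∧ zker V ρ j ⊔ adKer (ρ j) = cross V ρ j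

/-! ## Block N: norms -/

/-- **Row NKR** (short). An element of the kernel of a homomorphism into a field of characteristic `p` has a norm divisible by `p`. Proof. `I = RingHom.ker f ≠ ⊤`, `p ∈ I`; `absNorm I ∣ absNorm (span {p}) = p ^ finrank` and it is not `1`, so `p ∣ absNorm I` (`Nat.dvd_prime_pow`);
`absNorm I ∣ absNorm (span {x}) = (norm x).natAbs` (`Ideal.absNorm_dvd_absNorm_of_le`, `Ideal.absNorm_span_singleton`). See `NRM`, Pool/Agent/helper75/UM/NRM.lean. -/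
def NKR_stmt : Prop := ∀ (E : Type) [Field E] [NumberField E] (p : ℕ) (κ : Type) [Field κ] [CharP κ p],
  p.Prime → ∀ (f : 𝓞 E →+* κ) (x : 𝓞 E), f x = 0 → p ∣ (Algebra.norm ℤ x).natAbs

/-- **Row NPR** (short-medium). The `p`-adic absolute value of an integer of `E` is at least that of its norm. Proof. `x` divides `(norm x : 𝓞 E)` (Mathlib: `Ideal.absNorm_mem` for `span {x}`, with `Ideal.absNorm_span_singleton`: `((norm x).natAbs : 𝓞 E) ∈ span {x}`): `((norm x).natAbs : 𝓞 E) = x * y`. `‖ι y‖ ≤ 1` (integral: hypothesis `hι`), so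
`‖((norm x).natAbs : F)‖ ≤ ‖ι x‖`, and for a natural number `N ≠ 0`: `‖(N : F)‖ = ‖(N : ℚ_[p])‖ = p ^ (- padicValNat p N)` (`Padic.norm_eq_zpow_neg_valuation`, `padicNormE..`, or: `N = p^k N'` with `p ∤ N'`). -/
def NPR_stmt : Prop := ∀ (E : Type) [Field E] [NumberField E] (p : ℕ) [Fact p.Prime] (F : Type)
  [NormedField F] [NormedAlgebra ℚ_[p] F] (ι : E →+* F), (∀ y : 𝓞 E, ‖ι (y : E)‖ ≤ 1) →
  ∀ x : 𝓞 E, x ≠ 0 →
    (((p : ℝ) ^ padicValNat p (Algebra.norm ℤ x).natAbs)⁻¹) ≤ ‖ι (x : E)‖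

/-- **Row NRB** (short-medium; adapt `NRM`, Pool/Agent/helper75/UM/NRM.lean). The norm of the value of `Φ` is bounded. The inequality `‖φ (value)‖ ≤ X := H * ((∑ n i + 2) * B) ^ D` for all embeddings is in the proof of `relVal_eq_zero` (Pool/Agent/helper46/DS/NormB.lean: `norm_val_le`, `norm_coeff_le`, with the height `H` of `PhiE E Φ` as in NRM), and
`|norm| ≤ X ^ finrank` is `h4`, `h5` in `eq_zero_of_norm` there; `X ^ finrank ≤ X ^ d` if `X ≥ 1`, and for `X = 0` the norm is `0` (`finrank > 0`). -/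
def NRB_stmt : Prop := ∀ {r : ℕ} (n : Fin r → ℕ) (Φ : (MvPolynomial (Fin r × ℕ) ℤ)[X]),
  ∃ D H : ℕ, HasWeight n Φ D ∧ ∀ (d : ℕ) {E : Type} [Field E] [NumberField E],
    Module.finrank ℚ E ≤ d → ∀ (P : Fin r → ℤ[X]) (Q : (𝓞 E)[X]) (B : ℕ), 1 ≤ B →
    (∀ i, IsBounded (n i) B ((P i).map (Int.castRingHom (𝓞 E)))) → IsBounded 2 B Q →
    (Algebra.norm ℤ (val Φ P Q)).natAbs ≤ (H * (((∑ i, n i) + 2) * B) ^ D) ^ d

/-- **Row PRO** (short-medium; numbers only). Proof. Let `a_j = p_j` if `p_j ≤ c`, `a_j = 1` otherwise, and `u_j = p_j ^ v(N₁) * p_j ^ v(N₂)` (`v = padicValNat (p j)`), all `≥ 1`. In all cases `x_j ≤ cc_j * a_j ^ t * u_j ^ (2 t)`: (if `p_j ∣ M ∈ {N₁, N₂}` and `M ≠ 0` then `p_j ≤ p_j ^ v(M) ≤ u_j`). `∏ a_j` divides `c!` (different primes `≤ c`;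
`Finset.prod_primes_dvd`, the `p_j` are different on `s`), so it is `≤ c!`; `∏ p_j ^ v(N) ∣ N` (pairwise coprime divisors: `Finset.prod_dvd_of_coprime`..), so it is `≤ N`: `∏ u_j ≤ N₁ N₂`. -/
def PRO_stmt : Prop := ∀ (J : Type) (s : Finset J) (p : J → ℕ), Function.Injective p →
  (∀ j, (p j).Prime) → ∀ (N₁ N₂ c t : ℕ), N₁ ≠ 0 → N₂ ≠ 0 → ∀ (cc x : J → ℕ), (∀ j ∈ s, 1 ≤ cc j) →
  (∀ j ∈ s, ∃ M, (M = N₁ ∨ M = N₂) ∧ (x j ≤ cc j * ((p j) ^ padicValNat (p j) M) ^ t ∨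
    (x j ≤ (p j) ^ t * ((p j) ^ padicValNat (p j) M) ^ t ∧ (p j ≤ c ∨ p j ∣ M)))) →
  ∏ j ∈ s, x j ≤ (∏ j ∈ s, cc j) * c.factorial ^ t * (N₁ * N₂) ^ (2 * t)

/-! ## The one-prime theorem (rows of helper89), as used in the assembly -/

/-- The one-prime theorem for `ρ`, with constants `kap`, `δ` and exponent `e`, for families of dimensions `n`. -/
structure IsAmp {Γ F : Type} [Group Γ] [TopologicalSpace Γ] (p : ℕ) [Fact p.Prime] [NormedField F]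
    [NormedAlgebra ℚ_[p] F] {r : ℕ} (n : Fin r → ℕ) (i₀ : Fin r) (Φ : (MvPolynomial (Fin r × ℕ) ℤ)[X])
    (kap δ : ℝ) (e : ℕ) (ρ : Γ →* Matrix (Fin 2) (Fin 2) F) : Prop where
  kap_pos : 0 < kap
  del_pos : 0 < δ
  del_le : δ ≤ 1
  lev : ∀ V : (i : Fin r) → Γ →* Matrix (Fin (n i)) (Fin (n i)) ℤ_[p], (∀ i, Continuous (V i)) →
    ∀ g : Γ, (mapHom (toF p F) (V i₀) g).charpoly = X - C (ρ g).det →
    ∃ h ∈ kerV V, nu (ρ h) < δ ∧
      kap * ‖ev Φ (fun i => (mapHom (toF p F) (V i) g).charpoly) (ρ g).trace‖ ^ e ≤ nu (ρ h)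
  com : ∀ x y, nu (ρ x) < δ → nu (ρ y) < δ → ∃ g : Γ,
    kap * (nu (ρ x) * nu (ρ y)) ≤ nu (ρ (x * (g * y * g⁻¹) * x⁻¹ * (g * y * g⁻¹)⁻¹))
  pow : ∀ x, nu (ρ x) < δ → ∀ k : ℕ, kap * ‖(k : F)‖ * nu (ρ x) ≤ nu (ρ (x ^ k))

/-- AMB (helper89): uniform constants for big `p > 2 d + 1`. -/
def AMB_stmt : Prop := ∀ (r : ℕ) (n : Fin r → ℕ) (i₀ : Fin r) (Φ : (MvPolynomial (Fin r × ℕ) ℤ)[X]),
  IsPhi n i₀ Φ → ∀ d : ℕ, ∃ c : ℕ, ∀ (p : ℕ) [Fact p.Prime] (Γ : Type) [Group Γ]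
  [TopologicalSpace Γ] [IsTopologicalGroup Γ] [CompactSpace Γ] (F κ Ω : Type) [NormedField F]
  [NormedAlgebra ℚ_[p] F] [FiniteDimensional ℚ_[p] F] [Field κ] [IsAlgClosed κ] [CharP κ p]
  [Field Ω] [IsAlgClosed Ω] [CharZero Ω] [Algebra F Ω] (red : F → κ),
  IsRed red → Module.finrank ℚ_[p] F ≤ d → ∀ (ρ : Γ →* Matrix (Fin 2) (Fin 2) F)
  (S : Γ →* Matrix (Fin 2) (Fin 2) κ), Continuous ρ → (∀ g a b, ‖ρ g a b‖ ≤ 1) →
  (∀ g, S g = (ρ g).map red) → SI (bc (algebraMap F Ω) ρ) → Big p S → 2 * d + 1 < p →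
    IsAmp p n i₀ Φ (((p : ℝ) ^ c)⁻¹) 1 ((∑ i, n i) ^ 2 + 2) ρ

/-- AMF (helper89): constants depending on `ρ`, any `p`. -/
def AMF_stmt : Prop := ∀ (r : ℕ) (n : Fin r → ℕ) (i₀ : Fin r) (Φ : (MvPolynomial (Fin r × ℕ) ℤ)[X]),
  IsPhi n i₀ Φ → ∀ (p : ℕ) [Fact p.Prime] (Γ : Type) [Group Γ]
  [TopologicalSpace Γ] [IsTopologicalGroup Γ] [CompactSpace Γ] (F : Type) [NormedField F]
  [NormedAlgebra ℚ_[p] F] [FiniteDimensional ℚ_[p] F] (ρ : Γ →* Matrix (Fin 2) (Fin 2) F),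
  Continuous ρ → (∀ g a b, ‖ρ g a b‖ ≤ 1) → ∃ kap δ : ℝ, ∀ (Ω : Type) [Field Ω] [IsAlgClosed Ω]
  [CharZero Ω] [Algebra F Ω], SI (bc (algebraMap F Ω) ρ) →
    IsAmp p n i₀ Φ kap δ ((∑ i, n i) ^ 2 + 2) ρ

end Pool.Agent.PU
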