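import Mathlib
import Pool.Agent.helper16.PU.Spec2
import Pool.Agent.helper82.UM.Core3

/-!
# Project PU (MP_2e0e07_nt): assembly, local step
-/

set_option autoImplicit false

namespace Pool.Agent.PU

open Matrix Polynomial Pool.Agent.GO Pool.Agent.AR Pool.Agent.RG Pool.Agent.HZ Pool.Agent.DS
  Pool.Agent.AX Pool.Agent.UM NumberField

theorem nu_nonneg {F : Type*} [NormedField F] (A : Matrix (Fin 2) (Fin 2) F) : 0 ≤ nu A :=
  (norm_nonneg _).trans (le_max_right _ _)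

theorem nu_le_iff {F : Type*} [NormedField F] (A : Matrix (Fin 2) (Fin 2) F) (ε : ℝ) :
    nu A ≤ ε ↔ ‖A 0 1‖ ≤ ε ∧ ‖A 1 0‖ ≤ ε ∧ ‖A 0 0 - A 1 1‖ ≤ ε := by
  unfold nu
  rw [max_le_iff, max_le_iff, and_assoc]

theorem ultra (p : ℕ) [Fact p.Prime] (F : Type) [NormedField F] [NormedAlgebra ℚ_[p] F] :
    IsUltrametricDist F := by
  apply IsUltrametricDist.isUltrametricDist_of_forall_norm_natCast_le_one
  intro n
  have h1 : (n : F) = algebraMap ℚ_[p] F (n : ℚ_[p]) := by rw [map_natCast]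
  rw [h1, norm_algebraMap']
  exact Padic.norm_int_le_one (p := p) (n : ℤ)

theorem nu_pow_le {Γ F : Type} [Group Γ] [NormedField F] [IsUltrametricDist F]
    (ρ : Γ →* Matrix (Fin 2) (Fin 2) F) (hint : ∀ g a b, ‖ρ g a b‖ ≤ 1) (x : Γ) (k : ℕ) :
    nu (ρ (x ^ k)) ≤ nu (ρ x) := by
  have h1 : x ∈ FIX_L ρ hint (nu (ρ x)) (nu_nonneg _) := (nu_le_iff _ _).1 le_rfl
  exact (nu_le_iff _ _).2 ((FIX_L ρ hint (nu (ρ x)) (nu_nonneg _)).pow_mem h1 k)

/-- The level of `zker`, at one place. -/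
theorem lz (hALQ : ALQ_stmt) (hVAL : VAL_stmt) {Γ : Type} [Group Γ] [TopologicalSpace Γ]
    [IsTopologicalGroup Γ] [CompactSpace Γ] {r : ℕ} {n : Fin r → ℕ} {i₀ : Fin r}
    {Φ : (MvPolynomial (Fin r × ℕ) ℤ)[X]} {E : Type} [Field E]
    (V : (q : ℕ) → [Fact q.Prime] → (i : Fin r) → Γ →* Matrix (Fin (n i)) (Fin (n i)) ℤ_[q])
    (hV : ∀ (q : ℕ) [Fact q.Prime] (i : Fin r), Continuous (V q i))
    {J : Type} (p : J → ℕ) [∀ j, Fact (p j).Prime] (hp : Function.Injective p)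
    (F κ : J → Type) [∀ j, NormedField (F j)] [∀ j, NormedAlgebra ℚ_[p j] (F j)]
    [∀ j, FiniteDimensional ℚ_[p j] (F j)] [∀ j, Field (κ j)] [∀ j, IsAlgClosed (κ j)]
    [∀ j, CharP (κ j) (p j)] (red : ∀ j, F j → κ j) (hred : ∀ j, IsRed (red j))
    (ρ : (j : J) → Γ →* Matrix (Fin 2) (Fin 2) (F j)) (hρ : ∀ j, Continuous (ρ j))
    (hint : ∀ j g a b, ‖ρ j g a b‖ ≤ 1) (m : ℕ) (hm : 3 ≤ m) (hmn : ∀ i, n i ≤ m) (j : J)
    {kap δ : ℝ} {e : ℕ} (hA : IsAmp (p j) n i₀ Φ kap δ e (ρ j)) (ι : E →+* F j) (g : Γ)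
    (P : Fin r → ℤ[X]) (Q : (𝓞 E)[X])
    (hVg : ∀ i, (V (p j) i g).charpoly = (P i).map (Int.castRingHom ℤ_[p j]))
    (hρg : (ρ j g).charpoly = Q.map (ι.comp (algebraMap (𝓞 E) E)))
    (hdet : (P i₀).map (Int.castRingHom (𝓞 E)) = X - C (Q.coeff 0)) :
    ∃ z ∈ zker V ρ j, kap ^ 5 * ‖((m.factorial : ℕ) : F j)‖ ^ 2 *
      ‖ι ((val Φ P Q : 𝓞 E) : E)‖ ^ (2 * e) ≤ nu (ρ j z) := by
  have hu : IsUltrametricDist (F j) := ultra (p j) (F j)
  have hch : ∀ i, (mapHom (toF (p j) (F j)) (V (p j) i) g).charpoly =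
      (P i).map (Int.castRingHom (F j)) := by
    intro i
    rw [charpoly_mapHom, hVg i, Polynomial.map_map]
    congr 1
    exact RingHom.ext_int _ _
  obtain ⟨htr, hdt⟩ := trace_det_of_charpoly _ _ hρg
  have hc0 : (mapHom (toF (p j) (F j)) (V (p j) i₀) g).charpoly = X - C (ρ j g).det := by
    rw [hch, hdt, Polynomial.coeff_map]
    have h1 := congrArg (Polynomial.map (ι.comp (algebraMap (𝓞 E) E))) hdet
    rw [Polynomial.map_map, Polynomial.map_sub, Polynomial.map_X, Polynomial.map_C] at h1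
    rw [← h1]
    congr 1
    exact RingHom.ext_int _ _
  obtain ⟨x, hx, hxδ, hlev⟩ := hA.lev (V (p j)) (fun i => hV (p j) i) g hc0
  have hev : ev Φ (fun i => (mapHom (toF (p j) (F j)) (V (p j) i) g).charpoly) (ρ j g).trace =
      ι ((val Φ P Q : 𝓞 E) : E) :=
    ev_eq hVAL (ι.comp (algebraMap (𝓞 E) E)) P Q
      (fun i => mapHom (toF (p j) (F j)) (V (p j) i) g) (ρ j g) hch hρg
  rw [hev] at hlev
  have hL : nu (ρ j (x ^ m.factorial)) < δ := (nu_pow_le (ρ j) (hint j) x _).trans_lt hxδ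
  obtain ⟨g', hg'⟩ := hA.com (x ^ m.factorial) (x ^ m.factorial) hL hL
  obtain ⟨z, hz, hz'⟩ := hALQ Γ r n V hV J p hp F κ red hred ρ hρ hint m hm hmn j x hx
    (hxδ.trans_le hA.del_le) g'
  refine ⟨z, hz, le_trans ?_ hz'⟩
  have h1 : cmt m.factorial x (g' * x * g'⁻¹) =
      x ^ m.factorial * (g' * x ^ m.factorial * g'⁻¹) * (x ^ m.factorial)⁻¹ *
        (g' * x ^ m.factorial * g'⁻¹)⁻¹ := by
    unfold cmt
    rw [conj_pow]
  rw [h1]
  refine le_trans ?_ hg'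
  have hk := hA.kap_pos
  have h2 := hA.pow x hxδ m.factorial
  set A : ℝ := ‖ι ((val Φ P Q : 𝓞 E) : E)‖ with hAdef
  set f : ℝ := ‖((m.factorial : ℕ) : F j)‖ with hf
  have hA0 : 0 ≤ A := norm_nonneg _
  have hf0 : 0 ≤ f := norm_nonneg _
  have h3 : kap * f * (kap * A ^ e) ≤ nu (ρ j (x ^ m.factorial)) :=
    le_trans (mul_le_mul_of_nonneg_left hlev (by positivity)) h2
  have h4 : 0 ≤ kap * f * (kap * A ^ e) := by positivity
  have h5 : (kap * f * (kap * A ^ e)) * (kap * f * (kap * A ^ e)) ≤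
      nu (ρ j (x ^ m.factorial)) * nu (ρ j (x ^ m.factorial)) :=
    mul_le_mul h3 h3 h4 (nu_nonneg _)
  calc kap ^ 5 * f ^ 2 * A ^ (2 * e) =
      kap * ((kap * f * (kap * A ^ e)) * (kap * f * (kap * A ^ e))) := by
        rw [two_mul e, pow_add]; ring
    _ ≤ _ := mul_le_mul_of_nonneg_left h5 hk.le

end Pool.Agent.PU
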