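import Mathlib
import Pool.Agent.helper16.PU.Core
import Pool.Agent.helper82.UM.Core4

/-!
# Project PU (MP_2e0e07_nt): assembly, existence of a place
-/

set_option autoImplicit false

namespace Pool.Agent.PU

open Matrix Polynomial Pool.Agent.GO Pool.Agent.AR Pool.Agent.RG Pool.Agent.HZ Pool.Agent.DS
  Pool.Agent.AX Pool.Agent.UM MeasureTheory NumberField

/-- only finitely many places are not prime to `l` -/
theorem finite_noncoprime {Place : Type} (nv : Place → ℕ)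
    (hfin : ∀ q : ℕ, q.Prime → {v | q ∣ nv v}.Finite) {l : ℕ} (hl : 1 ≤ l) :
    {v | ¬ (nv v).Coprime l}.Finite := by
  have h1 : {v | ¬ (nv v).Coprime l} ⊆ ⋃ q ∈ l.primeFactors, {v | q ∣ nv v} := by
    intro v hv
    obtain ⟨q, hq, h2, h3⟩ := Nat.Prime.not_coprime_iff_dvd.1 hv
    exact Set.mem_biUnion (Nat.mem_primeFactors.2 ⟨hq, h3, by omega⟩) h2
  refine Set.Finite.subset ?_ h1
  exact Set.Finite.biUnion (Finset.finite_toSet _) fun q hq =>
    hfin q (Nat.prime_of_mem_primeFactors hq)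

theorem eff (hVAL : VAL_stmt) (hFAL : FAL_stmt) (hDNS : DNS_stmt) (hRLN : RLN_stmt)
    {r : ℕ} {n : Fin r → ℕ} {i₀ : Fin r} {Φ : (MvPolynomial (Fin r × ℕ) ℤ)[X]} (hΦ : IsPhi n i₀ Φ)
    {D : ℕ} (hW : HasWeight n Φ D) {d p₀ : ℕ} [Fact p₀.Prime] {a b : ℕ → ℕ}
    {Γ Place E J : Type} [Group Γ] [TopologicalSpace Γ] [IsTopologicalGroup Γ]
    [CompactSpace Γ] [MeasurableSpace Γ] [BorelSpace Γ] (μ : Measure Γ) [μ.IsHaarMeasure]
    (frob : Place → Set Γ) (nv : Place → ℕ) (hf : IsFrob frob nv)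
    [Field E] [NumberField E] {w : ℕ}
    (P : Fin r → Place → ℤ[X]) (Q : Place → (𝓞 E)[X]) (T : Set Place) (N : ℕ)
    (hpol : IsPolys n i₀ w nv T P Q)
    (V : (q : ℕ) → [Fact q.Prime] → (i : Fin r) → Γ →* Matrix (Fin (n i)) (Fin (n i)) ℤ_[q])
    (hV : IsSystem frob nv T P V)
    (F₀ : Type) [NormedField F₀] [NormedAlgebra ℚ_[p₀] F₀] [FiniteDimensional ℚ_[p₀] F₀]
    (hdF₀ : Module.finrank ℚ_[p₀] F₀ ≤ d) (ι₀ : E →+* F₀) (ρ₀ : Γ →* Matrix (Fin 2) (Fin 2) F₀)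
    (hρ₀ : HasPolys frob nv T p₀ Q ι₀ ρ₀)
    (hEC : EffectiveChebotarev' frob nv T p₀ (kerV (V p₀) ⊓ ρ₀.ker) a b N)
    (p : J → ℕ) [∀ j, Fact (p j).Prime] (hp : Function.Injective p)
    (F Ω κ : J → Type) [∀ j, NormedField (F j)] [∀ j, NormedAlgebra ℚ_[p j] (F j)]
    [∀ j, FiniteDimensional ℚ_[p j] (F j)] [∀ j, Field (Ω j)] [∀ j, IsAlgClosed (Ω j)]
    [∀ j, CharZero (Ω j)] [∀ j, Algebra (F j) (Ω j)] [∀ j, TopologicalSpace (Ω j)]
    [∀ j, IsTopologicalRing (Ω j)] [∀ j, T2Space (Ω j)]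
    [∀ j, Field (κ j)] [∀ j, IsAlgClosed (κ j)] [∀ j, CharP (κ j) (p j)]
    (ι : ∀ j, E →+* F j) (red : ∀ j, F j → κ j)
    (ρ : ∀ j, Γ →* Matrix (Fin 2) (Fin 2) (F j)) (S : ∀ j, Γ →* Matrix (Fin 2) (Fin 2) (κ j))
    (hm : ∀ j, IsMember frob nv T P Q (p j) (V (p j)) (Ω j) (ι j) (red j) (ρ j) (S j))
    (hinf : {j | Big (p j) (S j)}.Infinite)
    (hnone : NoneArises.{0} μ frob n (PE E P) (QE Q)) (l : ℕ) (hl : 1 ≤ l) :
    ∃ v ∉ T, (nv v).Coprime l ∧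
      nv v ≤ b (p₀ ^ (d * ((∑ i, n i) + 3) ^ (2 * D))) *
        (l * N) ^ a (p₀ ^ (d * ((∑ i, n i) + 3) ^ (2 * D))) ∧
      val Φ (fun i => P i v) (Q v) ≠ 0 := by
  classical
  by_contra hcon
  push Not at hcon
  let B : ℕ := p₀ ^ (d * ((∑ i, n i) + 3) ^ (2 * D))
  let T' : Set Place := T ∪ {v | ¬ (nv v).Coprime l}
  obtain ⟨j₁, hj₁⟩ := hinf.nonempty
  let P' : Fin r → Place → E[X] := fun i v => (P i v).map (Int.castRingHom E)
  let Q' : Place → E[X] := fun v => (Q v).map (algebraMap (𝓞 E) E)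
  have hdet' : ∀ v, P' i₀ v = X - C ((Q' v).coeff 0) := by
    intro v
    have h1 := congrArg (Polynomial.map (algebraMap (𝓞 E) E)) (hpol.det v)
    rw [Polynomial.map_map, Polynomial.map_sub, Polynomial.map_X, Polynomial.map_C] at h1
    show (P i₀ v).map (Int.castRingHom E) = X - C (((Q v).map (algebraMap (𝓞 E) E)).coeff 0)
    rw [Polynomial.coeff_map, ← h1, RingHom.ext_int (Int.castRingHom E)
      ((algebraMap (𝓞 E) E).comp (Int.castRingHom (𝓞 E)))]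
  have h1 := fal frob P Q V hVAL hFAL hW hf.nonempty nv T' p₀ (fun i => hV.cont p₀ i)
    (fun v hv => hV.charpoly p₀ v (fun h => hv (Or.inl h))) hdF₀ ι₀ ρ₀ hρ₀.cont
    (fun v hv => hρ₀.charpoly v (fun h => hv (Or.inl h)))
    (Y := b B * (l * N) ^ a B) (fun U hU hUn hUk hUi g => by
      obtain ⟨v, hv, h2, h3, h4, h5⟩ := hEC l hl B U hU hUn hUk hUi g
      refine ⟨v, ?_, h2, h4, h5⟩
      rintro (h | h)
      · exact hv h
      · exact h h3)
    (fun v hv hvY => hcon v (fun h => hv (Or.inl h)) (by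
      by_contra h
      exact hv (Or.inr h)) hvY)
  have hall : ∀ v ∉ T, val Φ (fun i => P i v) (Q v) = 0 := by
    intro v hv
    obtain ⟨j, _, hj⟩ := exists_gt p hp hinf (nv v)
    have h2 : ¬ p j ∣ nv v := fun h => by
      have h3 := Nat.le_of_dvd (Nat.pos_of_ne_zero (hf.norm_ne_zero v)) h
      omega
    exact spread frob P Q V hVAL hDNS hf.nonempty hf.dense nv T (T' ∪ {v | p₀ ∣ nv v})
      ((hpol.finite.union (finite_noncoprime nv hf.finite hl)).union (hf.finite p₀ Fact.out))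
      (p j) (hV.charpoly (p j)) (ι j) (ρ j) (hm j).polys.charpoly (hm j).realisation
      (fun v hv => h1 v (fun h => hv (Or.inl h)) (fun h => hv (Or.inr h))) v hv h2
  have hrel := hRLN i₀ Φ hΦ μ frob hf.nonempty hf.dense P Q T hpol.finite hpol.det
      ((algebraMap (F j₁) (Ω j₁)).comp (ι j₁))
      (fun i => mapHom (padicTo (p j₁) (F j₁) (Ω j₁)) (V (p j₁) i))
      (bc (algebraMap (F j₁) (Ω j₁)) (ρ j₁)) (hm j₁).realisation hall
  have hAd := (ar1 μ frob hf.dense P' Q' i₀ hdet' ((algebraMap (F j₁) (Ω j₁)).comp (ι j₁)) _ _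
      (hm j₁).realisation).1 hrel
  exact (hnone (Ω j₁) _ _ _ (hm j₁).realisation).1 hAd

end Pool.Agent.PU
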