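import Mathlib
import Pool.Agent.helper16.PU.Core2
import Pool.Agent.helper64.AX.CRA

/-!
# Project PU (MP_2e0e07_nt): assembly, big primes
-/

set_option autoImplicit false

namespace Pool.Agent.PU

open Matrix Polynomial Pool.Agent.GO Pool.Agent.AR Pool.Agent.RG Pool.Agent.HZ Pool.Agent.DS
  Pool.Agent.AX Pool.Agent.UM MeasureTheory NumberField

theorem adKer_le {Γ F κ : Type} [Group Γ] [NormedField F] [Field κ] {red : F → κ}
    (hred : IsRed red) {ρ : Γ →* Matrix (Fin 2) (Fin 2) F} {S : Γ →* Matrix (Fin 2) (Fin 2) κ}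
    (hS : ∀ g, S g = (ρ g).map red) : adKer ρ ≤ adKer S := by
  rintro g ⟨c, hc⟩
  refine ⟨red c, ?_⟩
  have h0 : red 0 = 0 := LFT_red_zero hred
  rw [hS, hc]
  ext a b
  fin_cases a <;> fin_cases b <;> simp [h0]

/-- an element close to the scalars has scalar reduction -/
theorem mem_adKer_of_nu {Γ F κ : Type} [Group Γ] [NormedField F] [Field κ]
    {red : F → κ} (hred : IsRed red) {ρ : Γ →* Matrix (Fin 2) (Fin 2) F}
    {S : Γ →* Matrix (Fin 2) (Fin 2) κ} (hint : ∀ g a b, ‖ρ g a b‖ ≤ 1)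
    (hS : ∀ g, S g = (ρ g).map red) {g : Γ} (h : nu (ρ g) < 1) : g ∈ adKer S := by
  unfold nu at h
  obtain ⟨h1, h3⟩ := max_lt_iff.1 h
  obtain ⟨h1, h2⟩ := max_lt_iff.1 h1
  refine ⟨red (ρ g 1 1), ?_⟩
  have e1 : red (ρ g 0 1) = 0 := (hred.zero_iff _ (hint g 0 1)).2 h1
  have e2 : red (ρ g 1 0) = 0 := (hred.zero_iff _ (hint g 1 0)).2 h2
  have e3 : red (ρ g 0 0) = red (ρ g 1 1) := by
    have h4 := hred.add (ρ g 0 0 - ρ g 1 1) (ρ g 1 1) h3.le (hint g 1 1)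
    rw [sub_add_cancel, (hred.zero_iff _ h3.le).2 h3, zero_add] at h4
    exact h4
  rw [hS]
  ext a b
  fin_cases a <;> fin_cases b
  · simpa using e3
  · simpa using e1
  · simpa using e2
  · simp

theorem norm_nat_ge (p : ℕ) [Fact p.Prime] (F : Type) [NormedField F] [NormedAlgebra ℚ_[p] F]
    {k : ℕ} (hk : k ≠ 0) : ((p : ℝ) ^ k)⁻¹ ≤ ‖(k : F)‖ := by
  have hp : 1 < p := (Fact.out : p.Prime).one_lt
  have hp0 : (0 : ℝ) < p := by exact_mod_cast (by omega : 0 < p)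
  have h1 : ‖(k : F)‖ = ‖(k : ℚ_[p])‖ := by
    have h1 : (k : F) = algebraMap ℚ_[p] F (k : ℚ_[p]) := by rw [map_natCast]
    rw [h1, norm_algebraMap']
  have h2 : (k : ℚ_[p]) ≠ 0 := Nat.cast_ne_zero.2 hk
  rw [h1, Padic.norm_eq_zpow_neg_valuation h2, Padic.valuation_natCast, _root_.zpow_neg, zpow_natCast]
  have h3 : p ^ padicValNat p k ≤ p ^ k := by
    refine (Nat.le_of_dvd (Nat.pos_of_ne_zero hk) pow_padicValNat_dvd).trans ?_
    exact (Nat.lt_pow_self hp).le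
  have h4 : (p : ℝ) ^ padicValNat p k ≤ (p : ℝ) ^ k := by exact_mod_cast h3
  exact inv_anti₀ (by positivity) h4

/-- Divisibility of the norm by a big prime. -/
theorem udv (hGTR : GTR_stmt) (hNKR : NKR_stmt) (hZNC : ZNC_stmt) (hVAL : VAL_stmt)
    (hRDP : RDP_stmt)
    {r : ℕ} {n : Fin r → ℕ} {i₀ : Fin r} {Φ : (MvPolynomial (Fin r × ℕ) ℤ)[X]} (hΦ : IsPhi n i₀ Φ)
    {cU : ℕ}
    (hc : ∀ (p : ℕ) (κ : Type) [Field κ]
      [IsAlgClosed κ] [CharP κ p] (G : Type) [Group G]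
      (W : (i : Fin r) → G →* Matrix (Fin (n i)) (Fin (n i)) (ZMod p))
      (S : G →* Matrix (Fin 2) (Fin 2) κ), p.Prime → (∀ i, (W i).ker.FiniteIndex) →
      S.ker.FiniteIndex → Big p S → cU * adDegree W S < p →
      ∀ g, Ratio (fun i => ((W i g).map (ZMod.castHom (dvd_refl p) κ)).charpoly)
        (S g).trace (S g).det)
    {Γ Place E J : Type} [Group Γ] [TopologicalSpace Γ] [IsTopologicalGroup Γ]
    [CompactSpace Γ] [Field E] [NumberField E]
    (P : Fin r → Place → ℤ[X]) (Q : Place → (𝓞 E)[X])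
    (V : (q : ℕ) → [Fact q.Prime] → (i : Fin r) → Γ →* Matrix (Fin (n i)) (Fin (n i)) ℤ_[q])
    (hV : ∀ (q : ℕ) [Fact q.Prime] (i : Fin r), Continuous (V q i))
    (p : J → ℕ) [∀ j, Fact (p j).Prime] (hp : Function.Injective p)
    (F κ : J → Type) [∀ j, NormedField (F j)] [∀ j, NormedAlgebra ℚ_[p j] (F j)]
    [∀ j, FiniteDimensional ℚ_[p j] (F j)] [∀ j, Field (κ j)] [∀ j, IsAlgClosed (κ j)]
    [∀ j, CharP (κ j) (p j)] (red : ∀ j, F j → κ j) (hred : ∀ j, IsRed (red j))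
    (ρ : (j : J) → Γ →* Matrix (Fin 2) (Fin 2) (F j)) (hρ : ∀ j, Continuous (ρ j))
    (hint : ∀ j g a b, ‖ρ j g a b‖ ≤ 1) (m : ℕ) (hm : 3 ≤ m) (hmn : ∀ i, n i ≤ m) (j : J)
    (S : Γ →* Matrix (Fin 2) (Fin 2) (κ j)) (hS : ∀ g, S g = (ρ j g).map (red j))
    (hWo : ∀ i, IsOpen ((Wm (p j) V i).ker : Set Γ)) (hSo : IsOpen (S.ker : Set Γ))
    (hbig : Big (p j) S) (h2m : 2 * m.factorial + 1 < p j) (hcU : cU < p j)
    (hZ : zker V ρ j ≤ adKer S) (v : Place)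
    (hmon : ∀ i, (P i v).Monic ∧ (P i v).natDegree = n i)
    (hdet : (P i₀ v).map (Int.castRingHom (𝓞 E)) = X - C ((Q v).coeff 0))
    (φ : 𝓞 E →+* κ j) (s : Γ)
    (hVs : ∀ i, (V (p j) i s).charpoly = (P i v).map (Int.castRingHom ℤ_[p j]))
    (hSs : (S s).charpoly = (Q v).map φ) :
    p j ∣ (Algebra.norm ℤ (val Φ (fun i => P i v) (Q v))).natAbs := by
  have hle : kerV (Wm (p j) V) ≤ adKer S := by
    by_contra h1
    have h2 : ∃ g ∈ kerV (fun i => mapHom (PadicInt.toZMod (p := p j)) (V (p j) i)),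
        g ∉ adKer S := by
      obtain ⟨g, hg, hg'⟩ := SetLike.not_le_iff_exists.1 h1
      exact ⟨g, hg, hg'⟩
    have h3 := CRA_all Γ r n V hV J p hp F κ red hred ρ hρ hint m hm hmn j S hS
        h2m hSo hbig.1 hbig.2 h2
    obtain ⟨-, -, h4⟩ := hZNC Γ r n V hV J F ρ hρ j
    have h5 : cross V ρ j ≤ adKer S := by
      rw [← h4]
      exact sup_le hZ (adKer_le (hred j) hS)
    have h6 := hGTR (p j) Γ (κ j) S hbig.2 (cross V ρ j) h5 h3.1
    have hfac : 6 ≤ m.factorial := by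
      have := Nat.factorial_le hm
      simpa [Nat.factorial] using this
    omega
  have h3 : adDegree (Wm (p j) V) S = 1 := Subgroup.relIndex_eq_one.2 hle
  have hfi : ∀ K : Subgroup Γ, IsOpen (K : Set Γ) → K.FiniteIndex := fun K hK => by
    have : Finite (Γ ⧸ K) := K.quotient_finite_of_isOpen hK
    exact Subgroup.finiteIndex_of_finite_quotient
  have h1 := hc (p j) (κ j) Γ (Wm (p j) V) S Fact.out (fun i => hfi _ (hWo i)) (hfi _ hSo) hbig
    (by rw [h3, mul_one]; exact hcU) s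
  have h2 := (ratio_place P Q V hVAL hΦ hRDP (p j) φ S v hmon hdet s hVs hSs).2 h1
  exact hNKR E (p j) (κ j) Fact.out φ _ h2

end Pool.Agent.PU
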