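import Mathlib
import Pool.Agent.helper16.PU.Spec2
import Pool.Agent.helper89.PU.Spec1

/-!
# Project PU (MP_2e0e07_nt): the one-prime theorem, form used in the assembly

`AMB_stmt`, `AMF_stmt` of `Spec2` with the hypothesis `IsPhiX` (the product formula) instead of
`IsPhi`, which determines the zero set of `Φ` only.
-/

set_option autoImplicit false

namespace Pool.Agent.PU

open Matrix Polynomial Pool.Agent.GO Pool.Agent.AR Pool.Agent.RG Pool.Agent.HZ Pool.Agent.DS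
  Pool.Agent.AX Pool.Agent.UM NumberField Pool.Agent.PV

/-- AMBX (helper89): uniform constants for big `p > 2 d + 1`. -/
def AMBX_stmt : Prop := ∀ (r : ℕ) (n : Fin r → ℕ) (i₀ : Fin r) (Φ : (MvPolynomial (Fin r × ℕ) ℤ)[X]),
  IsPhiX n i₀ Φ → ∀ d : ℕ, ∃ c : ℕ, ∀ (p : ℕ) [Fact p.Prime] (Γ : Type) [Group Γ]
  [TopologicalSpace Γ] [IsTopologicalGroup Γ] [CompactSpace Γ] (F κ Ω : Type) [NormedField F]
  [NormedAlgebra ℚ_[p] F] [FiniteDimensional ℚ_[p] F] [Field κ] [IsAlgClosed κ] [CharP κ p]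
  [Field Ω] [IsAlgClosed Ω] [CharZero Ω] [Algebra F Ω] (red : F → κ),
  IsRed red → Module.finrank ℚ_[p] F ≤ d → ∀ (ρ : Γ →* Matrix (Fin 2) (Fin 2) F)
  (S : Γ →* Matrix (Fin 2) (Fin 2) κ), Continuous ρ → (∀ g a b, ‖ρ g a b‖ ≤ 1) →
  (∀ g, S g = (ρ g).map red) → SI (bc (algebraMap F Ω) ρ) → Big p S → 2 * d + 1 < p →
    IsAmp p n i₀ Φ (((p : ℝ) ^ c)⁻¹) 1 ((∑ i, n i) ^ 2 + 2) ρ

/-- AMFX (helper89): constants depending on `ρ`, any `p`. -/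
def AMFX_stmt : Prop := ∀ (r : ℕ) (n : Fin r → ℕ) (i₀ : Fin r) (Φ : (MvPolynomial (Fin r × ℕ) ℤ)[X]),
  IsPhiX n i₀ Φ → ∀ (p : ℕ) [Fact p.Prime] (Γ : Type) [Group Γ]
  [TopologicalSpace Γ] [IsTopologicalGroup Γ] [CompactSpace Γ] (F : Type) [NormedField F]
  [NormedAlgebra ℚ_[p] F] [FiniteDimensional ℚ_[p] F] (ρ : Γ →* Matrix (Fin 2) (Fin 2) F),
  Continuous ρ → (∀ g a b, ‖ρ g a b‖ ≤ 1) → ∃ kap δ : ℝ, ∀ (Ω : Type) [Field Ω] [IsAlgClosed Ω]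
  [CharZero Ω] [Algebra F Ω], SI (bc (algebraMap F Ω) ρ) →
    IsAmp p n i₀ Φ kap δ ((∑ i, n i) ^ 2 + 2) ρ

end Pool.Agent.PU
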