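import Mathlib
import Pool.Agent.helper16.PU.Core3
import Pool.Agent.helper16.PU.Spec3
import Pool.Agent.helper82.UM.All

/-!
# Project PU (MP_2e0e07_nt): the polynomial adelic open image theorem, assembly
-/

set_option autoImplicit false

namespace Pool.Agent.PU

open Matrix Polynomial Pool.Agent.GO Pool.Agent.AR Pool.Agent.RG Pool.Agent.HZ Pool.Agent.DS
  Pool.Agent.AX Pool.Agent.UM MeasureTheory NumberField

/-- **The final statement.** -/
def MAINP_stmt : Prop := ∀ (r : ℕ) (n : Fin r → ℕ) (i₀ : Fin r) (d w p₀ : ℕ) [Fact p₀.Prime]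
    (a b : ℕ → ℕ),
    ∃ c₁ c₂ : ℕ, ∀ {Γ Place E J : Type} [Group Γ] [TopologicalSpace Γ] [IsTopologicalGroup Γ]
    [CompactSpace Γ] [MeasurableSpace Γ] [BorelSpace Γ] (μ : Measure Γ) [μ.IsHaarMeasure]
    (frob : Place → Set Γ) (nv : Place → ℕ) (_ : IsFrob frob nv)
    [Field E] [NumberField E] (_ : Module.finrank ℚ E ≤ d) (Q : Place → (𝓞 E)[X])
    (p : J → ℕ) [∀ j, Fact (p j).Prime] (_ : Function.Injective p)
    (F κ : J → Type) [∀ j, NormedField (F j)] [∀ j, NormedAlgebra ℚ_[p j] (F j)]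
    [∀ j, FiniteDimensional ℚ_[p j] (F j)] (_ : ∀ j, Module.finrank ℚ_[p j] (F j) ≤ d)
    [∀ j, Field (κ j)] [∀ j, IsAlgClosed (κ j)] [∀ j, CharP (κ j) (p j)]
    (ι : ∀ j, E →+* F j) (red : ∀ j, F j → κ j)
    (ρ : ∀ j, Γ →* Matrix (Fin 2) (Fin 2) (F j)) (S : ∀ j, Γ →* Matrix (Fin 2) (Fin 2) (κ j))
    (_ : {j | Big (p j) (S j)}.Infinite),
    ∃ c : J → ℕ, (∀ j, Big (p j) (S j) → 2 * d + 1 < p j → c j = 1) ∧
    ∀ (P : Fin r → Place → ℤ[X]) (T : Set Place) (N : ℕ) (_ : 1 ≤ N)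
    (_ : IsPolys n i₀ w nv T P Q)
    (V : (q : ℕ) → [Fact q.Prime] → (i : Fin r) → Γ →* Matrix (Fin (n i)) (Fin (n i)) ℤ_[q])
    (_ : IsSystem frob nv T P V)
    (F₀ : Type) [NormedField F₀] [NormedAlgebra ℚ_[p₀] F₀] [FiniteDimensional ℚ_[p₀] F₀]
    (_ : Module.finrank ℚ_[p₀] F₀ ≤ d) (ι₀ : E →+* F₀) (ρ₀ : Γ →* Matrix (Fin 2) (Fin 2) F₀)
    (_ : HasPolys frob nv T p₀ Q ι₀ ρ₀)
    (_ : EffectiveChebotarev' frob nv T p₀ (kerV (V p₀) ⊓ ρ₀.ker) a b N)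
    (Ω : J → Type) [∀ j, Field (Ω j)] [∀ j, IsAlgClosed (Ω j)]
    [∀ j, CharZero (Ω j)] [∀ j, Algebra (F j) (Ω j)] [∀ j, TopologicalSpace (Ω j)]
    [∀ j, IsTopologicalRing (Ω j)] [∀ j, T2Space (Ω j)]
    (_ : ∀ j, IsMember frob nv T P Q (p j) (V (p j)) (Ω j) (ι j) (red j) (ρ j) (S j)),
      (AllArise.{0} μ frob n (PE E P) (QE Q) ∧
        (∀ v ∉ T, ∀ φ : E →+* ℂ, RatioAt (fun i => P i v) (Q v) φ) ∧
        ∀ j, (kerV (V (p j)) ⊔ adKer (ρ j)).index = 0 ∧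
          (Big (p j) (S j) → p j ≠ 2 → kerV (Wm (p j) V) ≤ adKer (S j))) ∨
      (NoneArises.{0} μ frob n (PE E P) (QE Q) ∧
        (∃ v ∉ T, nv v ≤ c₁ * N ^ c₂ ∧ ∀ φ : E →+* ℂ, ¬ RatioAt (fun i => P i v) (Q v) φ) ∧
        (∀ j, (cross V ρ j).index ≠ 0 ∧ (Big (p j) (S j) → c₁ * N ^ c₂ < p j →
          (cross V ρ j).index ≤ 2 ∧ ¬ kerV (Wm (p j) V) ≤ adKer (S j))) ∧
        (∀ s : Finset J, (∀ j ∈ s, Big (p j) (S j) ∧ 2 * d + 1 < p j ∧
          2 < (cross V ρ j).index) → ∏ j ∈ s, (cross V ρ j).index ≤ c₁ * N ^ c₂) ∧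
        (∀ (s : Finset J) (k : J → ℕ), (∀ j ∈ s, ∀ h ∈ kerAll V,
          nu (ρ j h) ≤ ((p j : ℝ) ^ k j)⁻¹) →
          ∏ j ∈ s, p j ^ k j ≤ (∏ j ∈ s, c j) * (c₁ * N ^ c₂)) ∧
        ∀ g : J → Γ, (∀ j, g j ∈ cross V ρ j) →
          ∃ h ∈ kerAll V, ∀ j, h⁻¹ * g j ∈ adKer (ρ j))

/-- bounds for the norms -/
theorem const2 (H m b N a w D d : ℕ) :
    (H * (m * (b * (b * N ^ a * N) ^ a) ^ w) ^ D) ^ d =
      (H * (m * (b * b ^ a) ^ w) ^ D) ^ d * N ^ ((a + 1) * a * (w * D * d)) := by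
  have h1 : b * (b * N ^ a * N) ^ a = (b * b ^ a) * N ^ ((a + 1) * a) := by
    have h2 : b * N ^ a * N = b * N ^ (a + 1) := by rw [pow_succ]; ring
    rw [h2, mul_pow, ← pow_mul]
    ring
  rw [h1, const_bound]

theorem inv_le_of {x y : ℝ} {k : ℝ} (hx : 0 < x) (h : x⁻¹ ≤ y) (hy : y ≤ k⁻¹) (hk : 0 < k) :
    k ≤ x := by
  have h1 := h.trans hy
  exact (inv_le_inv₀ hx hk).1 h1

theorem MAINP (hPHX : Pool.Agent.PV.PHX_stmt) (hAMB : AMBX_stmt) (hAMF : AMFX_stmt) (hALQ : ALQ_stmt) (hZNC : ZNC_stmt)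
    (hIDX : IDX_stmt) (hRSZ : RSZ_stmt) (hITW : ITW_stmt) (hGTR : GTR_stmt) (hNKR : NKR_stmt)
    (hNPR : NPR_stmt) (hNRB : NRB_stmt) (hPRO : PRO_stmt) : MAINP_stmt := by
  intro r n i₀ d w p₀ _ a b
  obtain ⟨Φ, hΦX⟩ := hPHX r n i₀
  have hΦ : IsPhi n i₀ Φ := hΦX.1
  obtain ⟨cU, hU⟩ := UHT r n
  obtain ⟨D, H, hW, hN⟩ := hNRB n Φ
  obtain ⟨cA, hA⟩ := hAMB r n i₀ Φ hΦX d
  obtain ⟨C₁, C₂, hUM⟩ := MAINU_all r n i₀ d w p₀ a b
  set e : ℕ := (∑ i, n i) ^ 2 + 2 with he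
  set B : ℕ := p₀ ^ (d * ((∑ i, n i) + 3) ^ (2 * D)) with hBdef
  set m : ℕ := 3 + ∑ i, n i with hmdef
  have hm3 : 3 ≤ m := Nat.le_add_right _ _
  have hmn : ∀ i, n i ≤ m := fun i =>
    (Finset.single_le_sum (f := n) (fun _ _ => Nat.zero_le _) (Finset.mem_univ i)).trans
      (Nat.le_add_left _ _)
  set K : ℕ := 5 * cA + 2 * m.factorial with hK
  set t : ℕ := (1 + K + 2 * e) * (4 * d ^ 2 + 1) with ht
  set cp : ℕ := cU + (2 * m.factorial + 1) with hcp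
  set α₁ : ℕ := (H * (((∑ i, n i) + 2) * b B ^ w) ^ D) ^ d with hα₁
  set α₂ : ℕ := (H * (((∑ i, n i) + 2) * (b B * b B ^ a B) ^ w) ^ D) ^ d with hα₂
  set β₁ : ℕ := a B * (w * D * d) with hβ₁
  set β₂ : ℕ := (a B + 1) * a B * (w * D * d) with hβ₂
  refine ⟨C₁ + cp.factorial ^ t * (α₁ * α₂) ^ (2 * t), C₂ + (β₁ + β₂) * (2 * t), ?_⟩
  intro Γ Place E J _ _ _ _ _ _ μ _ frob nv hf _ _ hdE Q p _ hp F κ _ _ _ hdF _ _ _ ι red ρ S hinf
  classical
  -- the constants `c j`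
  have hcex : ∀ j, ∃ cj : ℕ, 1 ≤ cj ∧ (Big (p j) (S j) → 2 * d + 1 < p j → cj = 1) ∧
      (¬ (Big (p j) (S j) ∧ 2 * d + 1 < p j) → Continuous (ρ j) → (∀ g x y, ‖ρ j g x y‖ ≤ 1) →
        ∃ kap δ : ℝ, 0 < kap ∧ (kap ^ 5 * ‖((m.factorial : ℕ) : F j)‖ ^ 2)⁻¹ ≤ cj ∧
        ∀ (Ω : Type) [Field Ω] [IsAlgClosed Ω] [CharZero Ω] [Algebra (F j) Ω],
          SI (bc (algebraMap (F j) Ω) (ρ j)) → IsAmp (p j) n i₀ Φ kap δ e (ρ j)) := by
    intro j
    by_cases hg : Big (p j) (S j) ∧ 2 * d + 1 < p j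
    · exact ⟨1, le_rfl, fun _ _ => rfl, fun h => absurd hg h⟩
    · by_cases hci : Continuous (ρ j) ∧ ∀ g x y, ‖ρ j g x y‖ ≤ 1
      · obtain ⟨kap, δ, hk⟩ := hAMF r n i₀ Φ hΦX (p j) Γ (F j) (ρ j) hci.1 hci.2
        by_cases hk0 : 0 < kap
        · refine ⟨⌈(kap ^ 5 * ‖((m.factorial : ℕ) : F j)‖ ^ 2)⁻¹⌉₊ + 1, Nat.le_add_left _ _,
            fun h1 h2 => absurd ⟨h1, h2⟩ hg, fun _ _ _ => ⟨kap, δ, hk0, ?_, hk⟩⟩
          push_cast
          exact (Nat.le_ceil _).trans (by linarith)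
        · refine ⟨⌈((1 : ℝ) ^ 5 * ‖((m.factorial : ℕ) : F j)‖ ^ 2)⁻¹⌉₊ + 1, Nat.le_add_left _ _,
            fun h1 h2 => absurd ⟨h1, h2⟩ hg, fun _ _ _ => ⟨1, δ, one_pos, ?_, ?_⟩⟩
          · push_cast
            exact (Nat.le_ceil _).trans (by linarith)
          · intro Ω _ _ _ _ hSI
            exact absurd (hk Ω hSI).kap_pos hk0
      · exact ⟨1, le_rfl, fun _ _ => rfl, fun _ h1 h2 => absurd ⟨h1, h2⟩ hci⟩
  choose c hc1 hcg hcb using hcex
  refine ⟨c, hcg, ?_⟩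
  intro P T N hN1 hpol V hV F₀ _ _ _ hdF₀ ι₀ ρ₀ hρ₀ hEC Ω _ _ _ _ _ _ _ hm
  have hle1 : C₁ * N ^ C₂ ≤ (C₁ + cp.factorial ^ t * (α₁ * α₂) ^ (2 * t)) *
      N ^ (C₂ + (β₁ + β₂) * (2 * t)) :=
    Nat.mul_le_mul (Nat.le_add_right _ _) (Nat.pow_le_pow_right hN1 (Nat.le_add_right _ _))
  rcases hUM μ frob hf.nonempty hf.dense hdE nv hf.norm_ne_zero hf.finite P Q hpol.det T
    hpol.finite N hN1 (fun v hv => ⟨hpol.boundP v hv, hpol.boundQ v hv⟩) V hV.cont hV.charpoly F₀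
    hdF₀ ι₀ ρ₀ hρ₀.cont hρ₀.charpoly (fun B' U h1 h2 h3 h4 g => by
      obtain ⟨v, hv, h5, -, h6, h7⟩ := hEC 1 le_rfl B' U h1 h2 h3 h4 g
      rw [one_mul] at h6
      exact ⟨v, hv, h5, h6, h7⟩) p hp F Ω κ ι red (fun j => (hm j).isRed) ρ
    (fun j => (hm j).polys.cont) (fun j => (hm j).integral) (fun j => (hm j).polys.charpoly)
    (fun j => (hm j).realisation) S (fun j => (hm j).reduction) hinf with
    ⟨h1, h2, h3, h4⟩ | ⟨h1, h2, h3, h4⟩
  · exact Or.inl ⟨h1, h2, fun j => ⟨h4 j, h3 j⟩⟩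
  right
  obtain ⟨v₀, hv₀, hv₀N, hv₀r⟩ := h2
  refine ⟨h1, ⟨v₀, hv₀, hv₀N.trans hle1, hv₀r⟩, fun j => ⟨(h3 j).1, fun hb hc =>
    ⟨((h3 j).2 hb (hle1.trans_lt hc)).2, ((h3 j).2 hb (hle1.trans_lt hc)).1⟩⟩, ?_⟩
  -- two places
  have heff := eff VAL FAL DNS RLN hΦ hW (d := d) (p₀ := p₀) (a := a) (b := b) μ frob nv hf P Q T N
    hpol V hV F₀ hdF₀ ι₀ ρ₀ hρ₀ hEC p hp F Ω κ ι red ρ S hm hinf h1
  obtain ⟨v₁, hv₁T, -, hv₁Y, hv₁0⟩ := heff 1 le_rfl
  obtain ⟨v₂, hv₂T, hv₂c, hv₂Y, hv₂0⟩ := heff (nv v₁)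
    (Nat.one_le_iff_ne_zero.2 (hf.norm_ne_zero v₁))
  rw [one_mul] at hv₁Y
  set M₁ : ℕ := (Algebra.norm ℤ (val Φ (fun i => P i v₁) (Q v₁))).natAbs with hM₁
  set M₂ : ℕ := (Algebra.norm ℤ (val Φ (fun i => P i v₂) (Q v₂))).natAbs with hM₂
  have hM₁0 : M₁ ≠ 0 := Int.natAbs_ne_zero.2 (Algebra.norm_ne_zero_iff.2 hv₁0)
  have hM₂0 : M₂ ≠ 0 := Int.natAbs_ne_zero.2 (Algebra.norm_ne_zero_iff.2 hv₂0)
  have hnorm : ∀ v ∉ T, ∀ Y : ℕ, nv v ≤ Y →
      (Algebra.norm ℤ (val Φ (fun i => P i v) (Q v))).natAbs ≤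
        (H * (((∑ i, n i) + 2) * Y ^ w) ^ D) ^ d := by
    intro v hv Y hY
    refine (hN d hdE (fun i => P i v) (Q v) (nv v ^ w)
      (Nat.one_le_pow _ _ (Nat.pos_of_ne_zero (hf.norm_ne_zero v))) (hpol.boundP v hv)
      (hpol.boundQ v hv)).trans ?_
    gcongr
  have hM₁le : M₁ ≤ α₁ * N ^ β₁ := by
    have h5 := hnorm v₁ hv₁T _ hv₁Y
    rwa [const_bound] at h5
  have hM₂le : M₂ ≤ α₂ * N ^ β₂ := by
    have h5 : nv v₂ ≤ b B * (b B * N ^ a B * N) ^ a B := by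
      refine hv₂Y.trans ?_
      gcongr
    have h6 := hnorm v₂ hv₂T _ h5
    rwa [const2] at h6
  have hfinal : cp.factorial ^ t * (M₁ * M₂) ^ (2 * t) ≤
      (C₁ + cp.factorial ^ t * (α₁ * α₂) ^ (2 * t)) * N ^ (C₂ + (β₁ + β₂) * (2 * t)) := by
    calc cp.factorial ^ t * (M₁ * M₂) ^ (2 * t)
        ≤ cp.factorial ^ t * ((α₁ * N ^ β₁) * (α₂ * N ^ β₂)) ^ (2 * t) := by gcongr
      _ = cp.factorial ^ t * (α₁ * α₂) ^ (2 * t) * N ^ ((β₁ + β₂) * (2 * t)) := by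
          have h7 : (α₁ * N ^ β₁) * (α₂ * N ^ β₂) = (α₁ * α₂) * N ^ (β₁ + β₂) := by
            rw [pow_add]; ring
          rw [h7, mul_pow, ← pow_mul, mul_assoc]
      _ ≤ _ := Nat.mul_le_mul (Nat.le_add_left _ _)
          (Nat.pow_le_pow_right hN1 (Nat.le_add_left _ _))
  -- for every `j` one of the places is not above `p j`
  have hpl : ∀ j, ∃ v ∉ T, ¬ p j ∣ nv v ∧ val Φ (fun i => P i v) (Q v) ≠ 0 ∧
      ((Algebra.norm ℤ (val Φ (fun i => P i v) (Q v))).natAbs = M₁ ∨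
        (Algebra.norm ℤ (val Φ (fun i => P i v) (Q v))).natAbs = M₂) := by
    intro j
    by_cases h5 : p j ∣ nv v₁
    · refine ⟨v₂, hv₂T, fun h6 => ?_, hv₂0, Or.inr rfl⟩
      have h7 := Nat.dvd_gcd h6 h5
      rw [hv₂c] at h7
      exact (Fact.out : (p j).Prime).one_lt.ne' (Nat.dvd_one.1 h7)
    · exact ⟨v₁, hv₁T, h5, hv₁0, Or.inl rfl⟩
  -- the reductions
  have hφ : ∀ j, ∃ φ : 𝓞 E →+* κ j, ∀ x : 𝓞 E, red j (ι j (x : E)) = φ x ∧ ‖ι j (x : E)‖ ≤ 1 :=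
    fun j => RDX.1 (p j) (ι j) (red j) (hm j).isRed
  choose φ hφ using hφ
  have hmon : ∀ v ∉ T, ∀ i, (P i v).Monic ∧ (P i v).natDegree = n i :=
    fun v hv i => natDegree_of_bounded (hpol.boundP v hv i)
  have hSI : ∀ j, SI (bc (algebraMap (F j) (Ω j)) (ρ j)) := fun j =>
    SI_of_open _ (hm j).realisation.cont (hm j).realisation.irr
  have hSo : ∀ j, IsOpen ((S j).ker : Set Γ) := fun j =>
    RDX.2.1 (red j) (hm j).isRed (ρ j) (hm j).polys.cont (hm j).integral (S j) (hm j).reduction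
  have hWo : ∀ j i, IsOpen ((Wm (p j) V i).ker : Set Γ) := fun j i =>
    RDX.2.2 (p j) (V (p j) i) (hV.cont (p j) i)
  have hpos : ∀ j, (0 : ℝ) < p j := fun j => by
    exact_mod_cast (Fact.out : (p j).Prime).pos
  have hone : ∀ j, 1 ≤ p j := fun j => (Fact.out : (p j).Prime).one_lt.le
  -- lower bounds for the level of `zker`
  have hlow : ∀ j, ∀ kap δ : ℝ, IsAmp (p j) n i₀ Φ kap δ e (ρ j) →
      ∃ v ∉ T, ¬ p j ∣ nv v ∧ ∃ M : ℕ, (M = M₁ ∨ M = M₂) ∧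
      (Algebra.norm ℤ (val Φ (fun i => P i v) (Q v))).natAbs = M ∧
      ∃ z ∈ zker V ρ j, kap ^ 5 * ‖((m.factorial : ℕ) : F j)‖ ^ 2 *
        (((p j : ℝ) ^ padicValNat (p j) M) ^ (2 * e))⁻¹ ≤ nu (ρ j z) := by
    intro j kap δ hj
    obtain ⟨v, hv, hpv, hv0, hvM⟩ := hpl j
    obtain ⟨s, hs⟩ := hf.nonempty v
    obtain ⟨z, hz, hz'⟩ := lz hALQ VAL V hV.cont p hp F κ red (fun j => (hm j).isRed) ρ
      (fun j => (hm j).polys.cont) (fun j => (hm j).integral) m hm3 hmn j hj (ι j) s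
      (fun i => P i v) (Q v) (hV.charpoly (p j) v hv hpv s hs) ((hm j).polys.charpoly v hv hpv s hs)
      (hpol.det v)
    refine ⟨v, hv, hpv, (Algebra.norm ℤ (val Φ (fun i => P i v) (Q v))).natAbs, hvM, rfl, z, hz,
      le_trans ?_ hz'⟩
    have h5 := hNPR E (p j) (F j) (ι j) (fun y => (hφ j y).2) _ hv0
    have h6 : (((p j : ℝ) ^ padicValNat (p j)
        (Algebra.norm ℤ (val Φ (fun i => P i v) (Q v))).natAbs) ^ (2 * e))⁻¹ ≤
        ‖(ι j) ((val Φ (fun i => P i v) (Q v) : 𝓞 E) : E)‖ ^ (2 * e) := by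
      rw [← inv_pow]
      exact pow_le_pow_left₀ (inv_nonneg.2 (pow_nonneg (hpos j).le _)) h5 _
    have hk := hj.kap_pos
    exact mul_le_mul_of_nonneg_left h6 (by positivity)
  -- big primes
  have hgood : ∀ j, Big (p j) (S j) → 2 * d + 1 < p j → ∃ M : ℕ, (M = M₁ ∨ M = M₂) ∧
      (zker V ρ j ≤ adKer (S j) → p j ≤ cp ∨ p j ∣ M) ∧
      ∃ z ∈ zker V ρ j, ((p j : ℝ) ^ K * ((p j : ℝ) ^ padicValNat (p j) M) ^ (2 * e))⁻¹ ≤
        nu (ρ j z) := by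
    intro j hb hdj
    have hj := hA (p j) Γ (F j) (κ j) (Ω j) (red j) (hm j).isRed (hdF j) (ρ j) (S j)
      (hm j).polys.cont (hm j).integral (hm j).reduction (hSI j) hb hdj
    obtain ⟨v, hv, hpv, M, hM, hMv, z, hz, hz'⟩ := hlow j _ _ hj
    refine ⟨M, hM, fun hZ => ?_, z, hz, le_trans ?_ hz'⟩
    · by_contra hcon
      push Not at hcon
      obtain ⟨h5, h6⟩ := hcon
      obtain ⟨s, hs⟩ := hf.nonempty v
      refine h6 ?_
      rw [← hMv]
      exact udv hGTR hNKR hZNC VAL RDP hΦ hU P Q V hV.cont p hp F κ red (fun j => (hm j).isRed) ρ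
        (fun j => (hm j).polys.cont) (fun j => (hm j).integral) m hm3 hmn j (S j)
        (hm j).reduction (hWo j) (hSo j) hb (by omega) (by omega) hZ v (hmon v hv) (hpol.det v)
        (φ j) s (hV.charpoly (p j) v hv hpv s hs)
        (by
          rw [(hm j).reduction s]
          exact RDP.1 (p j) (ι j) (red j) (hm j).isRed (φ j) (hφ j) (ρ j s)
            (fun x y => (hm j).integral s x y) (Q v) ((hm j).polys.charpoly v hv hpv s hs))
    · have h5 := norm_nat_ge (p j) (F j) (Nat.factorial_ne_zero m)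
      have h6 : (((p j : ℝ) ^ m.factorial)⁻¹) ^ 2 ≤ ‖((m.factorial : ℕ) : F j)‖ ^ 2 :=
        pow_le_pow_left₀ (inv_nonneg.2 (pow_nonneg (hpos j).le _)) h5 2
      have h7 : ((p j : ℝ) ^ K)⁻¹ = (((p j : ℝ) ^ cA)⁻¹) ^ 5 * (((p j : ℝ) ^ m.factorial)⁻¹) ^ 2 := by
        rw [hK, inv_pow, inv_pow, ← pow_mul, ← pow_mul, ← mul_inv, ← pow_add]
        ring_nf
      rw [mul_inv, h7]
      have h8 : (0 : ℝ) ≤ (((p j : ℝ) ^ cA)⁻¹) ^ 5 := by
        have := hpos j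
        positivity
      have h9 : (0 : ℝ) ≤ (((p j : ℝ) ^ padicValNat (p j) M) ^ (2 * e))⁻¹ := by
        have := hpos j
        positivity
      exact mul_le_mul_of_nonneg_right (mul_le_mul_of_nonneg_left h6 h8) h9
  refine ⟨?_, ?_, h4⟩
  · -- the product of the indices
    intro s hs
    have hprod := hPRO J s p hp (fun j => Fact.out) M₁ M₂ cp t hM₁0 hM₂0 (fun _ => 1)
      (fun j => (cross V ρ j).index) (fun _ _ => le_rfl) (by
      intro j hj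
      obtain ⟨hb, hdj, hi⟩ := hs j hj
      have hd1 : 1 ≤ d := by
        have h5 : 0 < Module.finrank ℚ E := Module.finrank_pos
        omega
      have hp5 : 5 ≤ p j := by
        have h5 : 3 < p j := by omega
        by_contra h6
        have h7 : p j = 4 := by omega
        have h8 : (p j).Prime := Fact.out
        rw [h7] at h8
        exact absurd h8 (by norm_num)
      obtain ⟨hzn, hzc, hzx⟩ := hZNC Γ r n V hV.cont J F ρ (fun j => (hm j).polys.cont) j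
      have hZ : zker V ρ j ≤ adKer (S j) := by
        by_contra h5
        have h6 := hITW (p j) hp5 Γ (F j) (κ j) (red j) (hm j).isRed (ρ j) (S j)
          (hm j).polys.cont (hm j).integral (hm j).reduction (hSo j) hb (zker V ρ j) hzn hzc h5
        rw [hzx] at h6
        omega
      obtain ⟨M, hM, hMd, z, hz, hz'⟩ := hgood j hb hdj
      refine ⟨M, hM, Or.inr ⟨?_, hMd hZ⟩⟩
      have htop : ¬ (⊤ : Subgroup Γ) ≤ adKer (S j) := by
        intro h5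
        have h6 := hGTR (p j) Γ (κ j) (S j) hb.2 ⊤ h5 (by simp)
        rw [Subgroup.index_top] at h6
        omega
      have hPSL := (hRSZ (p j) hp5 Γ (κ j) (S j) (hSo j) hb ⊤ inferInstance htop).2.2
      have hpj := hpos j
      set A : ℝ := (p j : ℝ) ^ K * ((p j : ℝ) ^ padicValNat (p j) M) ^ (2 * e) with hAdef
      have hA0 : 0 < A := by positivity
      have hnu0 : 0 < nu (ρ j z) := lt_of_lt_of_le (inv_pos.2 hA0) hz'
      have h5 := (hIDX (p j) d (by omega) Γ (F j) (κ j) (red j) (hm j).isRed (hdF j) (ρ j) (S j)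
        (hm j).polys.cont (hm j).integral (hm j).reduction hPSL (zker V ρ j) hzn hzc hZ z hz hnu0).2
      rw [hzx] at h5
      have h6 : (p j : ℝ) / nu (ρ j z) ≤ p j * A := by
        rw [div_eq_mul_inv]
        refine mul_le_mul_of_nonneg_left ?_ hpj.le
        have h7 := inv_anti₀ (inv_pos.2 hA0) hz'
        rwa [inv_inv] at h7
      have h7 : ((cross V ρ j).index : ℝ) ≤ (p j * A) ^ (4 * d ^ 2) :=
        h5.trans (pow_le_pow_left₀ (by positivity) h6 _)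
      have h8 : (cross V ρ j).index ≤
          (p j * (p j ^ K * (p j ^ padicValNat (p j) M) ^ (2 * e))) ^ (4 * d ^ 2) := by
        rw [hAdef] at h7
        exact_mod_cast h7
      refine h8.trans ?_
      have h9 : (p j * (p j ^ K * (p j ^ padicValNat (p j) M) ^ (2 * e))) ^ (4 * d ^ 2) =
          p j ^ ((1 + K) * (4 * d ^ 2)) *
            (p j ^ padicValNat (p j) M) ^ (2 * e * (4 * d ^ 2)) := by
        rw [← mul_assoc, mul_pow, ← pow_mul (p j ^ padicValNat (p j) M), pow_mul (p j) (1 + K)]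
        have h12 : p j * p j ^ K = p j ^ (1 + K) := by
          rw [add_comm, pow_succ, mul_comm]
        rw [h12]
      rw [h9]
      have h10 : (1 + K) * (4 * d ^ 2) ≤ t := by
        rw [ht]
        exact Nat.mul_le_mul (by omega) (by omega)
      have h11 : 2 * e * (4 * d ^ 2) ≤ t := by
        rw [ht]
        exact Nat.mul_le_mul (by omega) (by omega)
      exact Nat.mul_le_mul (Nat.pow_le_pow_right (hone j) h10)
        (Nat.pow_le_pow_right (Nat.one_le_pow _ _ (hone j)) h11))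
    rw [Finset.prod_const_one, one_mul] at hprod
    exact hprod.trans hfinal
  · -- the product of the prime powers
    intro s k hk
    have hprod := hPRO J s p hp (fun j => Fact.out) M₁ M₂ cp t hM₁0 hM₂0 c
      (fun j => p j ^ k j) (fun j _ => hc1 j) (by
      intro j hj
      have hkj : ∀ z ∈ zker V ρ j, nu (ρ j z) ≤ ((p j : ℝ) ^ k j)⁻¹ := fun z hz =>
        hk j hj z (Subgroup.mem_inf.1 hz).1
      have hpj := hpos j
      have ht1 : 2 * e ≤ t := by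
        rw [ht]
        calc 2 * e = 2 * e * 1 := (mul_one _).symm
          _ ≤ _ := Nat.mul_le_mul (by omega) (by omega)
      have ht2 : K ≤ t := by
        rw [ht]
        calc K = K * 1 := (mul_one _).symm
          _ ≤ _ := Nat.mul_le_mul (by omega) (by omega)
      by_cases hg : Big (p j) (S j) ∧ 2 * d + 1 < p j
      · obtain ⟨M, hM, hMd, z, hz, hz'⟩ := hgood j hg.1 hg.2
        rcases Nat.eq_zero_or_pos (k j) with h0 | h0
        · refine ⟨M, hM, Or.inl ?_⟩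
          show p j ^ k j ≤ _
          rw [h0, pow_zero]
          exact Nat.one_le_iff_ne_zero.2 (Nat.mul_ne_zero (by have := hc1 j; omega)
            (pow_ne_zero _ (pow_ne_zero _ (by have := hone j; omega))))
        · have hZ : zker V ρ j ≤ adKer (S j) := by
            intro z' hz1
            refine mem_adKer_of_nu (hm j).isRed (hm j).integral (hm j).reduction
              ((hkj z' hz1).trans_lt ?_)
            have h5 : (1 : ℝ) < (p j : ℝ) ^ k j :=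
              one_lt_pow₀ (by exact_mod_cast (Fact.out : (p j).Prime).one_lt) (by omega)
            exact inv_lt_one_of_one_lt₀ h5
          refine ⟨M, hM, Or.inr ⟨?_, hMd hZ⟩⟩
          have h5 := inv_le_of (by positivity) hz' (hkj z hz) (by positivity)
          have h6 : p j ^ k j ≤ p j ^ K * (p j ^ padicValNat (p j) M) ^ (2 * e) := by
            exact_mod_cast h5
          refine h6.trans ?_
          exact Nat.mul_le_mul (Nat.pow_le_pow_right (hone j) ht2)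
            (Nat.pow_le_pow_right (Nat.one_le_pow _ _ (hone j)) ht1)
      · obtain ⟨kap, δ, hk0, hkc, hAmp⟩ := hcb j hg (hm j).polys.cont (hm j).integral
        obtain ⟨v, hv, hpv, M, hM, hMv, z, hz, hz'⟩ := hlow j kap δ (hAmp (Ω j) (hSI j))
        refine ⟨M, hM, Or.inl ?_⟩
        have h5 : 0 < kap ^ 5 * ‖((m.factorial : ℕ) : F j)‖ ^ 2 := by
          have h6 : 0 < ‖((m.factorial : ℕ) : F j)‖ :=
            lt_of_lt_of_le (by positivity) (norm_nat_ge (p j) (F j) (Nat.factorial_ne_zero m))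
          positivity
        have hcj : (0 : ℝ) < c j := by exact_mod_cast hc1 j
        have h6 : ((c j : ℝ) * ((p j : ℝ) ^ padicValNat (p j) M) ^ (2 * e))⁻¹ ≤ nu (ρ j z) := by
          refine le_trans ?_ hz'
          rw [mul_inv]
          refine mul_le_mul_of_nonneg_right ?_ (by positivity)
          have h7 := inv_anti₀ (inv_pos.2 h5) hkc
          rwa [inv_inv] at h7
        have h7 := inv_le_of (by positivity) h6 (hkj z hz) (by positivity)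
        have h8 : p j ^ k j ≤ c j * (p j ^ padicValNat (p j) M) ^ (2 * e) := by
          exact_mod_cast h7
        refine h8.trans ?_
        exact Nat.mul_le_mul le_rfl (Nat.pow_le_pow_right (Nat.one_le_pow _ _ (hone j)) ht1))
    calc ∏ j ∈ s, p j ^ k j
        ≤ (∏ j ∈ s, c j) * cp.factorial ^ t * (M₁ * M₂) ^ (2 * t) := hprod
      _ = (∏ j ∈ s, c j) * (cp.factorial ^ t * (M₁ * M₂) ^ (2 * t)) := by ring
      _ ≤ _ := Nat.mul_le_mul_left _ hfinal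

end Pool.Agent.PU
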