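import Pool.Agent.helper16.PU.Spec2

set_option autoImplicit false

namespace Pool.Agent.PU

open Module

theorem RAM_pow (p d : ℕ) [Fact p.Prime] (F : Type) [NormedField F] [NormedAlgebra ℚ_[p] F]
    [FiniteDimensional ℚ_[p] F] (hd : Module.finrank ℚ_[p] F ≤ d) (x : F) (hx : ‖x‖ < 1) :
    ‖x‖ ^ d ≤ (p : ℝ)⁻¹ := by
  have hint : IsIntegral ℚ_[p] x := Algebra.IsIntegral.isIntegral x
  have hn : 0 < (minpoly ℚ_[p] x).natDegree := minpoly.natDegree_pos hint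
  have h1 : ‖x‖ = ‖(minpoly ℚ_[p] x).coeff 0‖ ^ (1 / (minpoly ℚ_[p] x).natDegree : ℝ) := by
    rw [NormedAlgebra.norm_eq_spectralNorm ℚ_[p] x]
    exact spectralNorm.spectralNorm_eq_norm_coeff_zero_rpow ℚ_[p] F x
  have h2 : ‖x‖ ^ (minpoly ℚ_[p] x).natDegree = ‖(minpoly ℚ_[p] x).coeff 0‖ := by
    rw [h1, ← Real.rpow_natCast, ← Real.rpow_mul (norm_nonneg _), one_div, inv_mul_cancel₀, Real.rpow_one]
    exact_mod_cast hn.ne'
  have h3 : ‖(minpoly ℚ_[p] x).coeff 0‖ < 1 := by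
    rw [← h2]
    exact pow_lt_one₀ (norm_nonneg _) hx hn.ne'
  have h4 : ‖(minpoly ℚ_[p] x).coeff 0‖ ≤ (p : ℝ)⁻¹ := by
    have := (Padic.norm_le_pow_iff_norm_lt_pow_add_one ((minpoly ℚ_[p] x).coeff 0) (-1)).mpr (by simpa using h3)
    simpa using this
  calc ‖x‖ ^ d ≤ ‖x‖ ^ (minpoly ℚ_[p] x).natDegree :=
        pow_le_pow_of_le_one (norm_nonneg _) hx.le ((minpoly.natDegree_le x).trans hd)
    _ = ‖(minpoly ℚ_[p] x).coeff 0‖ := h2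
    _ ≤ (p : ℝ)⁻¹ := h4

theorem RAM : RAM_stmt := by
  intro p d _ F _ _ _ hd
  have hp := (Fact.out : p.Prime)
  have hp1 : (1 : ℝ) < p := by exact_mod_cast hp.one_lt
  have hd0 : d ≠ 0 := by
    have : 0 < Module.finrank ℚ_[p] F := Module.finrank_pos
    omega
  refine ⟨RAM_pow p d F hd, ?_⟩
  have hset : {x : F | ‖x‖ < 1} = {x : F | ‖x‖ ^ d ≤ (p : ℝ)⁻¹} := by
    ext x
    refine ⟨fun h => RAM_pow p d F hd x h, fun h => ?_⟩
    by_contra hc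
    have h1 : 1 ≤ ‖x‖ := not_lt.mp hc
    have h2 : 1 ≤ ‖x‖ ^ d := one_le_pow₀ h1
    have h3 : ‖x‖ ^ d ≤ (p : ℝ)⁻¹ := h
    have h4 : (p : ℝ)⁻¹ < 1 := inv_lt_one_of_one_lt₀ hp1
    linarith
  have : ProperSpace F := FiniteDimensional.proper ℚ_[p] F
  have hcl : IsClosed {x : F | ‖x‖ < 1} := by
    rw [hset]
    exact isClosed_le (continuous_norm.pow d) continuous_const
  have hco : IsCompact {x : F | ‖x‖ < 1} := by
    refine (isCompact_closedBall (0 : F) 1).of_isClosed_subset hcl ?_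
    intro x hx
    have h1 : ‖x‖ < 1 := hx
    rw [mem_closedBall_zero_iff]
    exact h1.le
  have hpn : ‖(algebraMap ℚ_[p] F) (p : ℚ_[p])‖ = (p : ℝ)⁻¹ := by
    rw [norm_algebraMap', Padic.norm_p]
  have hpm : (algebraMap ℚ_[p] F) (p : ℚ_[p]) ∈ {x : F | ‖x‖ < 1} := by
    show ‖(algebraMap ℚ_[p] F) (p : ℚ_[p])‖ < 1
    rw [hpn]
    exact inv_lt_one_of_one_lt₀ hp1
  obtain ⟨π, hπ, hmax⟩ := hco.exists_isMaxOn ⟨_, hpm⟩ continuous_norm.continuousOn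
  refine ⟨π, ?_, hπ, fun x hx => hmax hx⟩
  have h5 : ‖(algebraMap ℚ_[p] F) (p : ℚ_[p])‖ ≤ ‖π‖ := hmax hpm
  rw [hpn] at h5
  exact lt_of_lt_of_le (inv_pos.mpr (by linarith)) h5

end Pool.Agent.PU
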