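import Pool.Agent.helper16.PU.All0
import Pool.Agent.helper89.PU.All1

/-!
# Project PU: assembly
-/

set_option autoImplicit false

namespace Pool.Agent.PU

theorem MAINP_all : MAINP_stmt :=
  MAINP_all0 Pool.Agent.PV.PHX_all Pool.Agent.PV.AMBX_all Pool.Agent.PV.AMFX_all

end Pool.Agent.PU
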