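import Pool.Agent.helper46.AX.All1
import Pool.Agent.helper16.PU.Main
import Pool.Agent.helper16.PU.RAM
import Pool.Agent.helper31.PU.ALQ
import Pool.Agent.helper30.PU.GRD
import Pool.Agent.helper88.PU.GSL
import Pool.Agent.helper18.PU.IDX
import Pool.Agent.helper27.PU.ITW
import Pool.Agent.helper88.PU.NKR
import Pool.Agent.helper9.PU.NPR
import Pool.Agent.helper66.PU.NRB
import Pool.Agent.helper40.PU.PRO
import Pool.Agent.helper67.PU.RSZ
import Pool.Agent.helper78.PU.SHF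
import Pool.Agent.helper88.PU.TEL
import Pool.Agent.helper65.PU.ZNC
import Pool.Agent.helper2.PU.RSC
import Pool.Agent.helper63.PU.GTR
import Pool.Agent.helper6.PU.CPT

/-!
# Project PU: assembly of all pu rows
-/

set_option autoImplicit false

namespace Pool.Agent.PU

theorem ALQ_all : ALQ_stmt := ALQ Pool.Agent.AX.LPC_all Pool.Agent.AX.YV Pool.Agent.AX.YA

theorem SHF_all : SHF_stmt := SHF GSL

theorem IDX_all : IDX_stmt := IDX RAM RSC GRD SHF_all TEL CPT

theorem RSZ_all : RSZ_stmt := RSZ Pool.Agent.AX.DNO_all Pool.Agent.AX.DUW_all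
  Pool.Agent.AX.DPG_all Pool.Agent.AX.PMK Pool.Agent.AX.DRS_all

theorem ITW_all : ITW_stmt := ITW RSZ_all Pool.Agent.AX.LFT_all

theorem MAINP_all0 (hPHX : Pool.Agent.PV.PHX_stmt) (hAMB : AMBX_stmt) (hAMF : AMFX_stmt) : MAINP_stmt :=
  MAINP hPHX hAMB hAMF ALQ_all ZNC IDX_all RSZ_all ITW_all GTR NKR NPR NRB PRO

end Pool.Agent.PU
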