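import Mathlib
import Pool.Agent.helper16.PU.Main

/-!
# MP_2e0e07_nt: polynomial adelic open image for the pair (f, X)

Let `Γ` be a compact topological group with Haar measure `μ` and sets `frob v` of Frobenius elements,
with norms `nv v` (`IsFrob`; for the question: the absolute Galois group of an imaginary quadratic
field `K` and Chebotarev's theorem).

The form: `E` is a number field of degree at most `d`, `Q v = X² - a_v X + d_v` a polynomial over the
integers of `E` (the Hecke polynomials of a Bianchi newform `f` without CM, `d_v ∈ ℤ`). `J` is a set of
indices, `p j` different primes, `F j` an extension of `ℚ_[p j]` of degree at most `d`,
`ρ j : Γ → GL₂` continuous with integral entries over `F j` and with characteristic polynomials `Q v`,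
and `S j` is its reduction over an algebraically closed field `κ j` of characteristic `p j`
(`IsMember`; in particular `ρ j` is irreducible on all open subgroups). The index `j` is `Big` if
`S j` is irreducible and `p j` divides the order of its image; infinitely many `j` are big (for the
question by a theorem of Larsen), in fact for a newform without CM all but finitely many.

The variety: `P i v`, `i < r`, are polynomials over `ℤ` of degree `n i`, one of them `X - d_v` (the
Frobenius polynomials of the `H^i(X)` and of `det ρ`), and, for EVERY prime `q`, `V q i` is a continuous
representation of `Γ` over `ℤ_[q]` with characteristic polynomials `P i v` (`IsSystem`).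

The bounds: `T` is a finite set of places, outside of which all this holds and all conjugates of the
roots of the `P i v` and of `Q v` have absolute value at most `(nv v) ^ w` (`IsPolys`); and `N ≥ 1` is a
number such that the effective theorem of Chebotarev holds with the bounds `b B * (l * N) ^ a B`, for
places of norm prime to any given number `l`, for the field cut out by `V p₀` and by a `p₀`-adic
representation `ρ₀` with characteristic polynomials `Q v`, over an extension of `ℚ_[p₀]` of degree at
most `d`, for one fixed prime `p₀` (`EffectiveChebotarev'`). By the theorems of
Lagarias-Montgomery-Odlyzko and Thorner-Zaman there are such functions `a`, `b`, which depend only on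
`p₀` and on the degree of `K`, if `N` is at least the product of `|D_K|` and the norms of the bad places
of `f` and `X` (the conductor).

Theorem. There are numbers `c₁`, `c₂`, which depend only on the dimensions `n i`, on `d`, `w`, `p₀` and
on the functions `a`, `b`, but NOT on `Γ` (the field `K`), NOT on `f` and NOT on `X`, and for every `f`
there are numbers `c j`, equal to `1` for all big `j` with `p j > 2 d + 1`, such that for all `X` one of
the following holds:
* all realisations of `(P, Q)` arise from `P` (`ad⁰ ρ` is on an open subgroup a subquotient of a tensor
  construction of `V = ⊕ V i`, and `ρ` itself arises from `V` if there is a good set of places, for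
  instance if `f` has weight two); at EVERY place `v ∉ T` the quotient of the roots of `Q v` is a
  quotient of two roots of the product of the `P i v`; `K(ad (ρ j))` and `K(V (p j))` have an
  intersection of infinite degree for all `j`; and for EVERY big `j` with `p j ≠ 2` the field
  `K(ad (S j))` is contained in the field cut out by `V (p j)` modulo `p j`;
* no realisation of `(P, Q)` arises; the relation between the roots fails at a place `v ∉ T` with
  `nv v ≤ c₁ * N ^ c₂`, for all embeddings of `E`; the index of `cross V ρ j` is finite for every `j`,
  and for every big `j` with `p j > c₁ * N ^ c₂` it is at most two and `K(ad (S j))` is not contained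
  in the field cut out by `V (p j)` modulo `p j`;
  THE PRODUCT of the indices of `cross V ρ j` over all big `j` with `p j > 2 d + 1` for which the index
  is greater than two is at most `c₁ * N ^ c₂`;
  and if `M = ∏ (p j) ^ (k j)` is such that the common kernel `kerAll V` of the `V q i`, for all primes
  `q`, is contained for every `j` in the set of the `h` for which `ρ j h` is scalar modulo
  `(p j) ^ (k j)`, i.e. if `K(ad ρ mod M)` is contained in the field of all torsion points of the
  cohomology of `X`, then `M ≤ (∏ c j) * c₁ * N ^ c₂`;
  and for any `g j ∈ cross V ρ j` there is one `h ∈ kerAll V` with `ad (ρ j) (h) = ad (ρ j) (g j)` for
  all `j`.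

Here `cross V ρ j` is the subgroup generated by `adKer (ρ j)` and by the elements of the common kernel
`kerAll V` of the `V q i`, for ALL primes `q`, which are in `adKer (ρ k)` for all `k ≠ j`: the group of
the intersection of the field `K(ad (ρ j))` with the compositum of all the fields cut out by `X` (at all
primes) and by the other `ad (ρ k)`.

So: either `f` comes from `X` or the image of Galois on `f` and `X` together is open in the product of
the images, with an index which is (apart from quadratic intersections) bounded by a POLYNOMIAL in the
conductor. In particular (vertical criterion, one prime `p`, `X` moves): `f` comes from geometry if and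
only if for one prime `p` (any) there are a number `n`, infinitely many `m` and varieties `X_m` with
Betti numbers at most `n` and conductor at most `p ^ (δ m)` such that `K(ad ρ_{f,p} mod p ^ m)` is
contained in the field of the cohomology of `X_m` (`δ` depends on `n` and `d`); and similarly for any
sequence of moduli `M`, with conductors at most `M ^ δ`.
-/

namespace Pool.Agent.Results.MP_2e0e07_nt.PolynomialOpenImage

open Matrix Polynomial Pool.Agent.GO Pool.Agent.AR Pool.Agent.RG Pool.Agent.HZ Pool.Agent.DS
  Pool.Agent.AX Pool.Agent.UM Pool.Agent.PU MeasureTheory NumberField

end Pool.Agent.Results.MP_2e0e07_nt.PolynomialOpenImage
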